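import Pool.Agent.Helper30.N9.Sheet2

/-! MP_9b91d1_co: row FULLCX (helper67). -/

open scoped RealInnerProductSpace Topology

namespace Pool.Agent.Helper30.N9

namespace PlaneGraph

variable {V : Type} [Fintype V] [DecidableEq V] {M : PlaneGraph V}

theorem exists_dart_at (h3 : M.Conn3) {q : V → E3} (hq : M.InC q) (v : V) :
    ∃ d : M.G.Dart, d.fst = v := by
  have hne : Nonempty M.G.Dart := by
    by_contra hcon
    rw [not_nonempty_iff] at hcon
    obtain ⟨h, -, -, -, h4⟩ := hq.deg
    rw [Finset.univ_eq_empty, Finset.sum_empty] at h4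
    have := Real.pi_pos
    linarith
  obtain ⟨d0⟩ := hne
  obtain ⟨d, hd, -⟩ := exists_third h3 v d0 d0
  exact ⟨d, hd⟩

/-- the complex of a realization -/
noncomputable def fullCx {p : V → E3} {h : M.Face → E3} (H : Good M p h) :
    Cx V M.G.Dart M.Face where
  p := p
  fst := fun d => d.fst
  snd := fun d => d.snd
  rev := fun d => d.symm
  left := M.fc
  unit := H.inC.unit
  inj := H.inC.inj
  rev_rev := fun d => d.symm_symm
  fst_rev := fun _ => rfl
  ne := fun d => d.adj.ne
  nn := fun d => H.inC.ne_neg d
  closed := by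
    intro c u
    have h1 := sum_snd (M := M) c (fun v => if v = u then (1 : ℕ) else 0)
    have e1 : ∑ e ∈ M.fdarts c, (if e.snd = u then (1 : ℕ) else 0)
        = (Finset.univ.filter (fun d : M.G.Dart => M.fc d = c ∧ d.snd = u)).card := by
      rw [Finset.card_filter, fdarts, Finset.sum_filter]
      apply Finset.sum_congr rfl
      intro d _
      by_cases ha : M.fc d = c <;> by_cases hb : d.snd = u <;> simp [ha, hb]
    have e2 : ∑ e ∈ M.fdarts c, (if e.fst = u then (1 : ℕ) else 0)
        = (Finset.univ.filter (fun d : M.G.Dart => M.fc d = c ∧ d.fst = u)).card := by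
      rw [Finset.card_filter, fdarts, Finset.sum_filter]
      apply Finset.sum_congr rfl
      intro d _
      by_cases ha : M.fc d = c <;> by_cases hb : d.fst = u <;> simp [ha, hb]
    exact e1.symm.trans (h1.trans e2)
  surj := fun w => Quotient.inductionOn w (fun d => ⟨d, rfl⟩)
  inc := fun u => exists_dart_at H.c3 H.inC u
  lr := fun d => fc_symm_ne H.per H.c3 d
  embed := by
    intro d e h1 h2 x hx hx'
    have hne : d.edge ≠ e.edge := by
      intro he
      rcases (SimpleGraph.dart_edge_eq_iff d e).mp he with h3 | h3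
      · exact h1 h3.symm
      · apply h2
        rw [h3]
        exact e.symm_symm.symm
    obtain ⟨v, hv, -, hxv⟩ := H.inC.embed d e hne x hx hx'
    rcases mem_edge hv with h4 | h4
    · left; rw [hxv, h4]
    · right; rw [hxv, h4]
  vert := by
    intro u d hu
    obtain ⟨e, he⟩ := exists_dart_at H.c3 H.inC u
    by_cases h1 : d.edge = e.edge
    · rcases (SimpleGraph.dart_edge_eq_iff d e).mp h1 with h3 | h3
      · left; rw [← he, h3]
      · right; rw [← he, h3]; rfl
    · have hu' : p u ∈ arc (p e.fst) (p e.snd) := by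
        rw [he]
        exact left_mem_arc (H.inC.unit u)
      obtain ⟨v, hv, -, hxv⟩ := H.inC.embed d e h1 (p u) hu hu'
      have huv : u = v := H.inC.inj hxv
      rw [huv]
      exact mem_edge hv
  hc := h
  cen := H.cen
  w01 := by
    intro c z hz hd
    exact FW_01 H.per H.c3 H.inC H.cen c hz (fun d _ => hd d)
  wsum := by
    intro z hz hd
    exact sum_FW H.inC H.cen hz hd

end PlaneGraph

theorem fullcx : ST_FULLCX := by
  intro V _ _ M p h H
  exact ⟨PlaneGraph.fullCx H, rfl, rfl, rfl, rfl, rfl, rfl⟩

end Pool.Agent.Helper30.N9
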