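import Pool.Agent.Helper24.N9.Deg1
import Pool.Agent.Helper67.N9.FullCx

/-! MP_9b91d1_co, section 6, rows FCV, VCL, HALF, MAXT (helper67). -/

open scoped RealInnerProductSpace Topology

namespace Pool.Agent.Helper30.N9

open Cx

section
variable {V : Type} [Fintype V] [DecidableEq V] {M : PlaneGraph V}

theorem Std67.good {q : V → E3} {h : M.Face → E3} (H : M.Std q h) : Good M q h :=
  ⟨H.c3, H.per, H.inc, H.cen⟩

/-- the complex of a realization -/
noncomputable def cx67 {q : V → E3} {h : M.Face → E3} (H : M.Std q h) :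
    Cx V M.G.Dart M.Face := PlaneGraph.fullCx (Std67.good H)

theorem cov_of {q : V → E3} {h : M.Face → E3} (H : M.Std q h) {y : E3} (hy : y ≠ 0)
    (ho : (cx67 H).Offa (nrm y)) {w : M.Face} (hw : (cx67 H).w w (nrm y) = 1) :
    M.Cov q h (fun w' => w' = w) (nrm y) := ⟨norm_nrm hy, ho, w, rfl, hw⟩

theorem of_cov {q : V → E3} {h : M.Face → E3} (H : M.Std q h) {z : E3} {w : M.Face}
    (hz : M.Cov q h (fun w' => w' = w) z) : ‖z‖ = 1 ∧ (cx67 H).Offa z ∧
      (cx67 H).w w z = 1 := by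
  obtain ⟨h1, h2, w', rfl, h3⟩ := hz
  exact ⟨h1, h2, h3⟩

theorem isOpen_region {q : V → E3} {h : M.Face → E3} (H : M.Std q h) (w : M.Face) :
    IsOpen {y : E3 | y ≠ 0 ∧ (cx67 H).Offa (nrm y) ∧ (cx67 H).w w (nrm y) = 1} := by
  rw [isOpen_iff_mem_nhds]
  rintro y' ⟨h1, h2, h3⟩
  filter_upwards [eventually_w h1 h2 w] with y'' h
  exact ⟨h.1, h.2.1, by rw [h.2.2, h3]⟩

theorem st_FCV : ST_FCV := by
  intro V _ _ M q h H w S hS
  have hOn : {y : E3 | y ≠ 0 ∧ (cx67 H).Offa (nrm y) ∧ (cx67 H).w w (nrm y) = 1}.Nonempty := by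
    obtain ⟨y', h1, h2, h3⟩ := exists_region (X := cx67 H) w
    exact ⟨y', h1, h2, h3⟩
  obtain ⟨y, ⟨h1, h2, h3⟩, hg⟩ := exists_generic S hS (isOpen_region H w) hOn
  refine ⟨nrm y, cov_of H h1 h2 h3, fun n hn => ?_⟩
  rw [inner_nrm]
  exact mul_ne_zero (inv_ne_zero (norm_ne_zero_iff.mpr h1)) (hg n hn)

theorem st_VCL : ST_VCL := by
  intro V _ _ M q h H e y hy
  by_contra hcon
  push Not at hcon
  -- an interior point of the arc near q e.fst
  have hc : Continuous (fun t : ℝ => ⟪y, q e.fst + t • q e.snd⟫) := by fun_prop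
  have h0 : ∀ᶠ t in 𝓝 (0 : ℝ), ⟪y, q e.fst + t • q e.snd⟫ < 0 := by
    have h1 : Filter.Tendsto (fun t : ℝ => ⟪y, q e.fst + t • q e.snd⟫) (𝓝 0)
        (𝓝 ⟪y, q e.fst + (0 : ℝ) • q e.snd⟫) := hc.tendsto 0
    rw [zero_smul, add_zero] at h1
    exact h1.eventually_lt_const hcon
  obtain ⟨t, ht, ht0⟩ := ((h0.filter_mono nhdsWithin_le_nhds).and
    (self_mem_nhdsWithin : Set.Ioi (0 : ℝ) ∈ 𝓝[>] (0 : ℝ))).exists
  have ht0' : 0 < t := ht0
  obtain ⟨p0, p1, p2, p3⟩ := pt_props (H.inc.unit e.fst) (H.inc.unit e.snd)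
    (H.inc.q_ne e) (H.inc.ne_neg e) ht0'
  have hx : ⟪y, nrm (q e.fst + t • q e.snd)⟫ < 0 := by
    rw [inner_nrm]
    exact mul_neg_of_pos_of_neg (inv_pos.mpr (norm_pos_iff.mpr p0)) ht
  obtain ⟨x, hxd⟩ : ∃ x, x = nrm (q e.fst + t • q e.snd) := ⟨_, rfl⟩
  rw [← hxd] at hx p1 p2 p3
  have hx1 : x ∈ arc ((cx67 H).qa e) ((cx67 H).qb e) := p1
  have hev := edge_left (X := cx67 H) e hx1 p2 p3
  have hev2 : ∀ᶠ y' in 𝓝 x, ⟪y, y'⟫ < 0 := by
    have hcont : Continuous (fun y' : E3 => ⟪y, y'⟫) := by fun_prop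
    exact (hcont.tendsto x).eventually_lt_const hx
  have hev3 : ∀ᶠ y' in 𝓝 x, y' ≠ 0 := isOpen_ne.mem_nhds (ne_zero_of_unit hx1.1)
  obtain ⟨y', ⟨hy1, hy2, hy3⟩, hdet, -⟩ := exists_left_pt (X := cx67 H) e hx1
    (hev.and (hev2.and hev3))
  obtain ⟨c1, c2⟩ := hy1 hdet
  have := hy (nrm y') (cov_of H hy3 c1 c2)
  rw [inner_nrm] at this
  have h5 : 0 < ‖y'‖⁻¹ := inv_pos.mpr (norm_pos_iff.mpr hy3)
  nlinarith

theorem snd_of_bd {q : V → E3} {T : M.Face → Prop} {d : M.G.Dart}
    (hT : T (M.fc d)) {P : E3 → Prop} (hP : ∀ e : M.G.Dart, T (M.fc e) → P (q e.fst)) :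
    P (q d.snd) := by
  have h1 : T (M.fc (M.nxt d)) := by rw [M.fc_nxt]; exact hT
  have h2 := hP (M.nxt d) h1
  rwa [M.nxt_fst d] at h2

theorem det3_arc_nonneg {a b u v x : E3} (hu : 0 ≤ det3 a b u) (hv : 0 ≤ det3 a b v)
    (hx : x ∈ arc u v) : 0 ≤ det3 a b x := by
  obtain ⟨-, s, t, hs, ht, rfl⟩ := hx
  rw [det3_add_right, det3_smul_right, det3_smul_right]
  positivity

theorem st_HALF (hR1 : ST_REG1) (hR3 : ST_REG3) : ST_HALF := by
  intro V _ _ M q h H T hcv d hd z hz
  by_contra hcon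
  push Not at hcon
  have hz1 : ‖z‖ = 1 := hz.1
  -- the midpoint of the arc of d
  obtain ⟨x, hx1, hx2, hx3⟩ := exists_mid (X := cx67 H) d
  have hev := edge_right (X := cx67 H) d hx1 hx2 hx3
  have hev3 : ∀ᶠ y' in 𝓝 x, y' ≠ 0 := isOpen_ne.mem_nhds (ne_zero_of_unit hx1.1)
  -- a point to the right
  have hx1' : x ∈ arc ((cx67 H).qa ((cx67 H).rev d)) ((cx67 H).qb ((cx67 H).rev d)) := by
    rw [qa_rev, qb_rev, arc_comm]; exact hx1
  obtain ⟨y', ⟨hy1, hy3⟩, hdet, -⟩ := exists_left_pt (X := cx67 H) ((cx67 H).rev d) hx1'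
    (hev.and hev3)
  rw [det_rev] at hdet
  have hdet' : det3 (q d.fst) (q d.snd) y' < 0 := by
    have : 0 < - det3 (q d.fst) (q d.snd) y' := hdet
    linarith
  obtain ⟨c1, c2⟩ := hy1 hdet'
  have hcov' : M.Cov q h (fun w' => w' = M.fc d.symm) (nrm y') := cov_of H hy3 c1 c2
  -- the half space
  have hU : IsPreconnected {y : E3 | det3 (q d.fst) (q d.snd) y < 0} := by
    apply Convex.isPreconnected
    intro y1 h1 y2 h2 s t hs ht hst
    show det3 (q d.fst) (q d.snd) (s • y1 + t • y2) < 0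
    rw [det3_add_right, det3_smul_right, det3_smul_right]
    have e1 : det3 (q d.fst) (q d.snd) y1 < 0 := h1
    have e2 : det3 (q d.fst) (q d.snd) y2 < 0 := h2
    rcases hs.lt_or_eq with h3 | h3
    · have := mul_neg_of_pos_of_neg h3 e1
      have := mul_nonpos_of_nonneg_of_nonpos ht e2.le
      linarith
    · have ht1 : t = 1 := by linarith
      rw [← h3, ht1]; linarith
  have h0 : ∀ y ∈ {y : E3 | det3 (q d.fst) (q d.snd) y < 0}, y ≠ 0 := by
    rintro y hy rfl
    have : det3 (q d.fst) (q d.snd) 0 < 0 := hy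
    have e : det3 (q d.fst) (q d.snd) 0 = 0 := by
      simp [det3]
    rw [e] at this
    exact lt_irrefl _ this
  have hb : ∀ y ∈ {y : E3 | det3 (q d.fst) (q d.snd) y < 0}, ∀ d', M.Bd T d' →
      nrm y ∉ arc (q d'.fst) (q d'.snd) := by
    intro y hy d' hd' hmem
    have e1 : 0 ≤ det3 (q d.fst) (q d.snd) (q d'.fst) := hcv d d' hd hd'.1
    have e2 : 0 ≤ det3 (q d.fst) (q d.snd) (q d'.snd) :=
      snd_of_bd (q := q) (T := T) hd'.1 (P := fun u => 0 ≤ det3 (q d.fst) (q d.snd) u)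
        (fun e he => hcv d e hd he)
    have e3 := det3_arc_nonneg e1 e2 hmem
    rw [det3_nrm] at e3
    have h5 : 0 < ‖y‖⁻¹ := inv_pos.mpr (norm_pos_iff.mpr (h0 y hy))
    have e4 : det3 (q d.fst) (q d.snd) y < 0 := hy
    nlinarith
  have hzz : nrm z = z := nrm_unit hz1
  have hcovz : M.Cov q h T (nrm z) := by rw [hzz]; exact hz
  have hT' := hR1 V M q h H T _ hU h0 hb z hcon y' hdet' c1 hcovz
  obtain ⟨w, hw1, hw2, -⟩ := (hR3 V M q h H).1 _ _ _ hT' hcov'
  rw [hw2] at hw1
  exact hd.2 hw1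

theorem st_MAXT (hH : ST_HALF) : ST_MAXT := by
  classical
  intro V _ _ M p h H T hcv om hom x hrel w w' hw hw' z hz
  obtain ⟨hzu, ho, hc⟩ := of_cov H hz
  have hzT : M.Cov p h T z := by
    obtain ⟨a1, a2, a3, a4, a5⟩ := hz
    exact ⟨a1, a2, a3, by rw [a4]; exact hw, a5⟩
  -- the extended lift
  obtain ⟨xx, hxx⟩ : ∃ xx : M.Face → E3, xx = fun v => if T v then x v else 0 := ⟨_, rfl⟩
  obtain ⟨oo, hoo⟩ : ∃ oo : M.G.Dart → ℝ, oo = fun d => if M.InD T d then om d else 0 :=
    ⟨_, rfl⟩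
  have hoo0 : ∀ d, 0 ≤ oo d := by
    intro d
    rw [hoo]
    simp only
    split_ifs
    · exact hom.nonneg d
    · exact le_refl _
  -- a generic point in the region of w'
  have hOn : {y : E3 | y ≠ 0 ∧ (cx67 H).Offa (nrm y) ∧ (cx67 H).w w' (nrm y) = 1}.Nonempty := by
    obtain ⟨y', h1, h2, h3⟩ := exists_region (X := cx67 H) w'
    exact ⟨y', h1, h2, h3⟩
  obtain ⟨y', ⟨h1, h2, h3⟩, hgen⟩ := exists_generic
    ((Finset.univ.filter (fun u => z ≠ - (cx67 H).p u)).image (fun u => crs ((cx67 H).p u) z))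
    (by
      intro n hn
      rw [Finset.mem_image] at hn
      obtain ⟨u, hu, rfl⟩ := hn
      rw [Finset.mem_filter] at hu
      intro h0
      have := crs_pos ((cx67 H).unit u) hzu (off_ne ho u).symm
        (fun h => hu.2 (by rw [h, neg_neg]))
      rw [h0, inner_zero_left] at this
      exact lt_irrefl _ this) (isOpen_region H w') hOn
  obtain ⟨z', hz'⟩ : ∃ z', z' = nrm y' := ⟨_, rfl⟩
  have hzu' : ‖z'‖ = 1 := by rw [hz']; exact norm_nrm h1
  have hcov' : M.Cov p h T z' := by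
    rw [hz']
    exact ⟨norm_nrm h1, h2, w', hw', h3⟩
  rw [← hz'] at h2 h3
  have hg : ∀ u, z ≠ -(cx67 H).p u → det3 ((cx67 H).p u) z z' ≠ 0 := by
    intro u hu
    have h4 := hgen (crs ((cx67 H).p u) z) (Finset.mem_image.mpr ⟨u, by simp [hu], rfl⟩)
    rw [crs_inner] at h4
    rw [hz', det3_nrm]
    have h5 : 0 < ‖y'‖⁻¹ := inv_pos.mpr (norm_pos_iff.mpr h1)
    exact mul_ne_zero h5.ne' h4
  have hj := jump (X := cx67 H) hzu hzu' ho h2 hg xx
  rw [sum_w_smul hzu' h2 h3, sum_w_smul hzu ho hc] at hj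
  have hxw : xx w = x w := by rw [hxx]; simp [hw]
  have hxw' : xx w' = x w' := by rw [hxx]; simp [hw']
  rw [hxw, hxw'] at hj
  -- signs
  have hsign : ∀ d, (E4 (-z) (-z') ((cx67 H).qa d) ((cx67 H).qb d) = 0) ∨
      (0 < E4 (-z) (-z') ((cx67 H).qa d) ((cx67 H).qb d) *
          det3 ((cx67 H).qa d) ((cx67 H).qb d) z ∧
        det3 ((cx67 H).qa d) ((cx67 H).qb d) z * det3 ((cx67 H).qa d) ((cx67 H).qb d) z'
          < 0) := by
    intro d
    have hs := E4_sign (a := -z) (b := -z') (u := (cx67 H).qa d) (v := (cx67 H).qb d)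
      (by rwa [norm_neg]) (by rwa [norm_neg]) ((cx67 H).unit _) ((cx67 H).unit _)
      (slit_d hzu' h2 d) (slit_d hzu ho d)
      (slit_gen hzu hzu' h2 _ (hg _)) (slit_gen hzu hzu' h2 _ (hg _))
      (fun h => off_ne ho _ (neg_injective h)) (fun h => off_ne ho _ (neg_injective h))
      (fun h => off_ne h2 _ (neg_injective h)) (fun h => off_ne h2 _ (neg_injective h))
      ((cx67 H).nn d)
    have e : det3 (-z) ((cx67 H).qa d) ((cx67 H).qb d)
        = - det3 ((cx67 H).qa d) ((cx67 H).qb d) z := by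
      simp only [det3, PiLp.neg_apply]; ring
    have e' : det3 (-z') ((cx67 H).qa d) ((cx67 H).qb d)
        = - det3 ((cx67 H).qa d) ((cx67 H).qb d) z' := by
      simp only [det3, PiLp.neg_apply]; ring
    rw [e, e'] at hs
    rcases hs with h | h | h
    · left; exact h
    · right
      exact ⟨mul_pos h.1 (by linarith), mul_neg_of_pos_of_neg (by linarith) (by linarith)⟩
    · right
      exact ⟨mul_pos_of_neg_of_neg h.1 (by linarith),
        mul_neg_of_neg_of_pos (by linarith) (by linarith)⟩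
  -- the jumps
  have hterm2 : ∀ d, E4 (-z) (-z') ((cx67 H).qa d) ((cx67 H).qb d) •
      (xx ((cx67 H).left d) - xx ((cx67 H).left ((cx67 H).rev d)))
      = E4 (-z) (-z') ((cx67 H).qa d) ((cx67 H).qb d) •
        oo d • crs ((cx67 H).qa d) ((cx67 H).qb d) := by
    intro d
    by_cases hin : M.InD T d
    · have e1 : oo d = om d := by rw [hoo]; simp only; rw [if_pos hin]
      have e2 : xx ((cx67 H).left d) = x (M.fc d) := by
        rw [hxx]
        show (if T (M.fc d) then x (M.fc d) else 0) = x (M.fc d)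
        rw [if_pos hin.1]
      have e3 : xx ((cx67 H).left ((cx67 H).rev d)) = x (M.fc d.symm) := by
        rw [hxx]
        show (if T (M.fc d.symm) then x (M.fc d.symm) else 0) = x (M.fc d.symm)
        rw [if_pos hin.2]
      rw [e1, e2, e3, hrel d hin]
      rfl
    · have e1 : oo d = 0 := by rw [hoo]; simp only; rw [if_neg hin]
      rw [e1, zero_smul, smul_zero]
      by_cases hl : T (M.fc d)
      · -- boundary dart
        have hr : ¬ T (M.fc d.symm) := fun hr => hin ⟨hl, hr⟩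
        have f1 := hH V M p h H T hcv d ⟨hl, hr⟩ z hzT
        have f2 := hH V M p h H T hcv d ⟨hl, hr⟩ z' hcov'
        rcases hsign d with h4 | h4
        · rw [h4, zero_smul]
        · exfalso
          have f3 : det3 (p d.fst) (p d.snd) z * det3 (p d.fst) (p d.snd) z' < 0 := h4.2
          have := mul_nonneg f1 f2
          linarith
      · by_cases hr : T (M.fc d.symm)
        · have hbd : M.Bd T d.symm := ⟨hr, by rw [d.symm_symm]; exact hl⟩
          have f1 := hH V M p h H T hcv d.symm hbd z hzT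
          have f2 := hH V M p h H T hcv d.symm hbd z' hcov'
          rcases hsign d with h4 | h4
          · rw [h4, zero_smul]
          · exfalso
            have f3 : det3 (p d.fst) (p d.snd) z * det3 (p d.fst) (p d.snd) z' < 0 := h4.2
            have g1 : det3 (p d.symm.fst) (p d.symm.snd) z = - det3 (p d.fst) (p d.snd) z :=
              det_rev (X := cx67 H) d z
            have g2 : det3 (p d.symm.fst) (p d.symm.snd) z' = - det3 (p d.fst) (p d.snd) z' :=
              det_rev (X := cx67 H) d z'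
            rw [g1] at f1
            rw [g2] at f2
            have := mul_nonneg f1 f2
            nlinarith
        · have e2 : xx ((cx67 H).left d) = 0 := by
            rw [hxx]
            show (if T (M.fc d) then x (M.fc d) else 0) = 0
            rw [if_neg hl]
          have e3 : xx ((cx67 H).left ((cx67 H).rev d)) = 0 := by
            rw [hxx]
            show (if T (M.fc d.symm) then x (M.fc d.symm) else 0) = 0
            rw [if_neg hr]
          rw [e2, e3, sub_zero, smul_zero]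
  rw [Finset.sum_congr rfl (fun d _ => hterm2 d)] at hj
  have hpi := Real.pi_pos
  have hk : 0 < (8 * Real.pi)⁻¹ := by positivity
  have hin : ⟪x w' - x w, z⟫ = -(8 * Real.pi)⁻¹ *
      ∑ d, oo d * (E4 (-z) (-z') ((cx67 H).qa d) ((cx67 H).qb d) *
        det3 ((cx67 H).qa d) ((cx67 H).qb d) z) := by
    rw [hj, real_inner_smul_left, sum_inner]
    congr 1
    apply Finset.sum_congr rfl
    intro d _
    rw [real_inner_smul_left, real_inner_smul_left, crs_inner]
    ring
  have hterm : ∀ d ∈ Finset.univ, 0 ≤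
      oo d * (E4 (-z) (-z') ((cx67 H).qa d) ((cx67 H).qb d) *
        det3 ((cx67 H).qa d) ((cx67 H).qb d) z) := by
    intro d _
    rcases hsign d with h | h
    · rw [h]; simp
    · exact mul_nonneg (hoo0 d) h.1.le
  have hsum := Finset.sum_nonneg hterm
  have hle : ⟪x w' - x w, z⟫ ≤ 0 := by
    rw [hin]
    have := mul_nonneg hk.le hsum
    linarith
  rw [inner_sub_left] at hle
  constructor
  · linarith
  · intro heq
    have h7 : ⟪x w' - x w, z⟫ = 0 := by rw [inner_sub_left, heq, sub_self]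
    rw [hin] at h7
    have h8 : ∑ d, oo d * (E4 (-z) (-z') ((cx67 H).qa d) ((cx67 H).qb d) *
        det3 ((cx67 H).qa d) ((cx67 H).qb d) z) = 0 := by
      rcases mul_eq_zero.mp h7 with h | h
      · linarith
      · exact h
    have h9 := (Finset.sum_eq_zero_iff_of_nonneg hterm).mp h8
    have h10 : x w' - x w = 0 := by
      rw [hj]
      have : ∑ d, E4 (-z) (-z') ((cx67 H).qa d) ((cx67 H).qb d) •
          oo d • crs ((cx67 H).qa d) ((cx67 H).qb d) = 0 := by
        apply Finset.sum_eq_zero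
        intro d _
        rcases hsign d with h | h
        · rw [h, zero_smul]
        · have h11 := h9 d (Finset.mem_univ d)
          rcases mul_eq_zero.mp h11 with h12 | h12
          · rw [h12, zero_smul, smul_zero]
          · exact absurd h12 h.1.ne'
      rw [this, smul_zero]
    exact sub_eq_zero.mp h10

end

end Pool.Agent.Helper30.N9
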