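import Pool.Agent.Helper67.N9.Tq

/-! MP_9b91d1_co, section 6, row TQ, main part (helper67). -/

open scoped RealInnerProductSpace Topology

namespace Pool.Agent.Helper30.N9

open Cx

namespace D67

section
variable {V : Type} [Fintype V] [DecidableEq V] {M : PlaneGraph V} {L : Type}
  {p : V → E3} {h : M.Face → E3} {a : E3} {l : M.Face → L} {s t : V} {k : ℕ} {th : ℕ → ℝ}
  {r : ℕ → E3} {lam : ℕ → L} {om : M.G.Dart → ℝ}

/-- torque of a dart -/
noncomputable def tau (p : V → E3) (a : E3) (om : M.G.Dart → ℝ) (d : M.G.Dart) : ℝ :=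
  om d * det3 a (p d.fst) (p d.snd)

theorem tau_symm (hw : M.Wt om) (d : M.G.Dart) : tau p a om d.symm = - tau p a om d := by
  unfold tau
  rw [hw.symm d]
  show om d * det3 a (p d.snd) (p d.fst) = - (om d * det3 a (p d.fst) (p d.snd))
  simp only [det3]; ring

open Classical in
/-- torque of lune i at the vertex v -/
noncomputable def Bt (p : V → E3) (a : E3) (om : M.G.Dart → ℝ) (T : M.Face → Prop) (v : V) :
    ℝ :=
  ∑ d ∈ Finset.univ.filter (fun d : M.G.Dart => d.fst = v), if M.InD T d then tau p a om d else 0

theorem InD_symm {T : M.Face → Prop} {d : M.G.Dart} : M.InD T d.symm ↔ M.InD T d := by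
  unfold PlaneGraph.InD
  rw [d.symm_symm]
  exact and_comm

theorem sum_symm (f : M.G.Dart → ℝ) : ∑ d : M.G.Dart, f d.symm = ∑ d : M.G.Dart, f d :=
  Finset.sum_bij' (fun (d : M.G.Dart) _ => d.symm) (fun (d : M.G.Dart) _ => d.symm)
    (fun _ _ => Finset.mem_univ _) (fun _ _ => Finset.mem_univ _)
    (by intro d _; exact d.symm_symm) (by intro d _; exact d.symm_symm) (fun _ _ => rfl)

/-- total torque of a set of faces -/
theorem sum_Bt (hw : M.Wt om) (T : M.Face → Prop) : ∑ v, Bt p a om T v = 0 := by
  classical
  have h1 : ∑ v, Bt p a om T v = ∑ d : M.G.Dart, if M.InD T d then tau p a om d else 0 := by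
    unfold Bt
    exact Finset.sum_fiberwise Finset.univ (fun d : M.G.Dart => d.fst) _
  have h2 : ∑ d : M.G.Dart, (if M.InD T d.symm then tau p a om d.symm else 0)
      = - ∑ d : M.G.Dart, if M.InD T d then tau p a om d else 0 := by
    rw [← Finset.sum_neg_distrib]
    apply Finset.sum_congr rfl
    intro d _
    by_cases hd : M.InD T d
    · rw [if_pos (InD_symm.mpr hd), if_pos hd, tau_symm hw]
    · rw [if_neg (fun h => hd (InD_symm.mp h)), if_neg hd, neg_zero]
  have h3 := sum_symm (fun d : M.G.Dart => if M.InD T d then tau p a om d else 0)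
  linarith

theorem det3_pole (y : E3) : det3 a a y = 0 ∧ det3 a (-a) y = 0 := by
  constructor
  · simp only [det3]; ring
  · simp only [det3, PiLp.neg_apply]; ring

theorem Bt_pole (F : M.Fan p a l s t) (T : M.Face → Prop) {v : V} (hv : v = s ∨ v = t) :
    Bt p a om T v = 0 := by
  unfold Bt
  apply Finset.sum_eq_zero
  intro d hd
  rw [Finset.mem_filter] at hd
  have h0 : tau p a om d = 0 := by
    unfold tau
    rw [hd.2]
    rcases hv with rfl | rfl
    · rw [F.ps, (det3_pole _).1, mul_zero]
    · rw [F.pt, (det3_pole _).2, mul_zero]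
  rw [h0]
  simp

/-- torque vanishes at the vertices off the meridians -/
theorem Bt_inner (S : M.Swing p a l s t om) (b : L) {v : V} (hv : ¬ M.OnE l v) :
    Bt p a om (fun w => l w = b) v = 0 := by
  classical
  by_cases hex : ∃ d : M.G.Dart, d.fst = v ∧ l (M.fc d) = b
  · obtain ⟨d0, hd0, hb⟩ := hex
    have hall : ∀ d : M.G.Dart, d.fst = v → M.InD (fun w => l w = b) d := by
      intro d hd
      have h1 : l (M.fc d) = b := (label_const hv d d0 hd hd0).trans hb
      refine ⟨h1, ?_⟩
      show l (M.fc d.symm) = b
      by_contra hne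
      exact hv ⟨d, hd, fun h => hne (h.symm.trans h1)⟩
    unfold Bt
    have h2 : ∀ d ∈ Finset.univ.filter (fun d : M.G.Dart => d.fst = v),
        (if M.InD (fun w => l w = b) d then tau p a om d else 0)
          = ⟪a, om d • crs (p d.fst) (p d.snd)⟫ := by
      intro d hd
      rw [Finset.mem_filter] at hd
      rw [if_pos (hall d hd.2), real_inner_smul_right]
      unfold tau
      congr 1
      rw [real_inner_comm, crs_inner]
      simp only [det3]; ring
    rw [Finset.sum_congr rfl h2, ← inner_sum, S.eq v hv, inner_zero_right]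
  · unfold Bt
    apply Finset.sum_eq_zero
    intro d hd
    rw [Finset.mem_filter] at hd
    rw [if_neg]
    intro hin
    exact hex ⟨d, hd.2, hin.1⟩

/-- meridian vertices of a lune -/
theorem Bt_mer (H : M.Std p h) (F : M.Fan p a l s t) (G : M.FanL p a l s t k th r lam)
    (S : M.Swing p a l s t om) {i : ℕ} (hi : i < k) {v : V}
    (h1 : ¬ On' p a s t (r i) v) (h2 : ¬ On' p a s t (r (i + 1)) v) :
    Bt p a om (fun w => l w = lam i) v = 0 := by
  classical
  by_cases hs : v = s
  · exact Bt_pole F _ (Or.inl hs)
  by_cases ht : v = t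
  · exact Bt_pole F _ (Or.inr ht)
  by_cases hv : M.OnE l v
  · unfold Bt
    apply Finset.sum_eq_zero
    intro d hd
    rw [Finset.mem_filter] at hd
    rw [if_neg]
    intro hin
    obtain ⟨e, he, hE⟩ := hv
    obtain ⟨j, hj, hon, -, -⟩ := G.ray e hE
    have hon' : On' p a s t (r (j + 1)) d.fst := by
      rw [hd.2]
      rw [he] at hon
      exact ⟨hon, hs, ht⟩
    rcases on_lune H F G hi (j := j + 1) (by omega) hin.1 hon' with h3 | h3
    · apply h1
      rw [← h3, ← hd.2]; exact hon'
    · apply h2
      rw [← h3, ← hd.2]; exact hon'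
  · exact Bt_inner S _ hv

open Classical in
/-- torque of lune i at the meridian r j -/
noncomputable def At (p : V → E3) (a : E3) (s t : V) (om : M.G.Dart → ℝ) (T : M.Face → Prop)
    (ρ : E3) : ℝ := ∑ v, if On' p a s t ρ v then Bt p a om T v else 0

theorem two_le_k (F : M.Fan p a l s t) (G : M.FanL p a l s t k th r lam) : 2 ≤ k := by
  obtain ⟨d, hd⟩ := F.ex
  obtain ⟨i, hi, -, -, h3⟩ := G.ray d hd
  by_contra hk
  have hk1 : k = 1 := by omega
  have hi0 : i = 0 := by omega
  have h0 : lam 1 = lam 0 := by
    have := G.lamk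
    rwa [hk1] at this
  rw [hi0] at h3
  rcases h3 with ⟨-, h4, h5⟩ | ⟨-, h4, h5⟩
  · exact hd (h4.trans (h0.trans h5.symm))
  · exact hd (h4.trans (h0.symm.trans h5.symm))

theorem r_succ_ne (ha : ‖a‖ = 1) (F : M.Fan p a l s t) (G : M.FanL p a l s t k th r lam)
    {i : ℕ} (hi : i < k) : r i ≠ r (i + 1) := by
  have h2 := two_le_k F G
  apply r_inj ha G (Nat.lt_succ_self i) (by omega)
  by_contra hcon
  push Not at hcon
  omega

theorem on_unique (H : M.Std p h) (F : M.Fan p a l s t) (G : M.FanL p a l s t k th r lam)
    {i j : ℕ} (hi : i ≤ k) (hj : j ≤ k) {v : V} (h1 : On' p a s t (r i) v)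
    (h2 : On' p a s t (r j) v) : r i = r j := by
  obtain ⟨n1, n2⟩ := ne_pole H F h1.2.1 h1.2.2
  exact onR_unique F.ua (H.inc.unit v) (r_unit F.ua G hi).1 (r_unit F.ua G hi).2
    (r_unit F.ua G hj).1 h1.1 h2.1 n1 n2

/-- (1) the torques at the two meridians of a lune are opposite -/
theorem At_sum (H : M.Std p h) (F : M.Fan p a l s t) (G : M.FanL p a l s t k th r lam)
    (S : M.Swing p a l s t om) {i : ℕ} (hi : i < k) :
    At p a s t om (fun w => l w = lam i) (r i)
      + At p a s t om (fun w => l w = lam i) (r (i + 1)) = 0 := by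
  classical
  rw [← sum_Bt (p := p) (a := a) S.wt (fun w => l w = lam i)]
  unfold At
  rw [← Finset.sum_add_distrib]
  apply Finset.sum_congr rfl
  intro v _
  by_cases h1 : On' p a s t (r i) v
  · have h2 : ¬ On' p a s t (r (i + 1)) v := fun h2 =>
      r_succ_ne F.ua F G hi (on_unique H F G hi.le (by omega) h1 h2)
    rw [if_pos h1, if_neg h2, add_zero]
  · by_cases h2 : On' p a s t (r (i + 1)) v
    · rw [if_neg h1, if_pos h2, zero_add]
    · rw [if_neg h1, if_neg h2, add_zero, Bt_mer H F G S hi h1 h2]

/-- sum over all lunes of the torque at a vertex -/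
theorem sum_lunes (G : M.FanL p a l s t k th r lam) (S : M.Swing p a l s t om) (v : V) :
    ∑ i ∈ Finset.range k, Bt p a om (fun w => l w = lam i) v
      = ∑ d ∈ Finset.univ.filter (fun d : M.G.Dart => d.fst = v), tau p a om d := by
  classical
  unfold Bt
  rw [Finset.sum_comm]
  apply Finset.sum_congr rfl
  intro d _
  by_cases hE : M.E0 l d
  · have h0 : tau p a om d = 0 := by
      unfold tau
      rw [S.zero d hE, zero_mul]
    rw [h0]
    simp
  · obtain ⟨i, hi, hli⟩ := G.lams (M.fc d)
    have hsy : l (M.fc d.symm) = l (M.fc d) := by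
      by_contra hne
      exact hE (fun h => hne h.symm)
    rw [Finset.sum_eq_single i]
    · rw [if_pos]
      exact ⟨hli, hsy.trans hli⟩
    · intro j hj hji
      rw [if_neg]
      intro hin
      apply hji
      apply G.lami j (Finset.mem_range.mp hj) i hi
      exact hin.1.symm.trans hli
    · intro hni
      exact absurd (Finset.mem_range.mpr hi) hni

/-- (2) the net torque on a meridian vanishes -/
theorem net_zero (H : M.Std p h) (F : M.Fan p a l s t) (G : M.FanL p a l s t k th r lam)
    (S : M.Swing p a l s t om) {j : ℕ} (hj : j ≤ k) :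
    ∑ i ∈ Finset.range k, At p a s t om (fun w => l w = lam i) (r j) = 0 := by
  classical
  have h1 := S.tq (fun v => if On' p a s t (r j) v then 1 else 0) (by
    intro d hd n1 n2 n3 n4
    obtain ⟨i, hi, o1, o2, -⟩ := G.ray d hd
    have o1' : On' p a s t (r (i + 1)) d.fst := ⟨o1, n1, n2⟩
    have o2' : On' p a s t (r (i + 1)) d.snd := ⟨o2, n3, n4⟩
    by_cases h1 : On' p a s t (r j) d.fst
    · have e := on_unique H F G hj (by omega : i + 1 ≤ k) h1 o1'
      have h2 : On' p a s t (r j) d.snd := by rw [e]; exact o2'
      simp only [if_pos h1, if_pos h2]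
    · by_cases h2 : On' p a s t (r j) d.snd
      · have e := on_unique H F G hj (by omega : i + 1 ≤ k) h2 o2'
        exact absurd (by rw [e]; exact o1') h1
      · simp only [if_neg h1, if_neg h2])
  have h2 : ∑ i ∈ Finset.range k, At p a s t om (fun w => l w = lam i) (r j)
      = ∑ v, if On' p a s t (r j) v then
        (∑ d ∈ Finset.univ.filter (fun d : M.G.Dart => d.fst = v), tau p a om d) else 0 := by
    unfold At
    rw [Finset.sum_comm]
    apply Finset.sum_congr rfl
    intro v _
    by_cases hv : On' p a s t (r j) v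
    · simp only [if_pos hv]
      exact sum_lunes G S v
    · simp only [if_neg hv]
      exact Finset.sum_const_zero
  have h3 := Finset.sum_fiberwise (Finset.univ : Finset M.G.Dart)
    (fun d : M.G.Dart => d.fst) (fun d => om d * ((fun v => if On' p a s t (r j) v then
      (1 : ℝ) else 0) d.fst * det3 a (p d.fst) (p d.snd)))
  rw [h2]
  refine Eq.trans (Eq.trans ?_ h3) h1
  apply Finset.sum_congr rfl
  intro v _
  by_cases hv : On' p a s t (r j) v
  · rw [if_pos hv]
    apply Finset.sum_congr rfl
    intro d hd
    rw [Finset.mem_filter] at hd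
    have hv' : On' p a s t (r j) d.fst := by rw [hd.2]; exact hv
    simp only [if_pos hv', one_mul]
    rfl
  · rw [if_neg hv]
    symm
    apply Finset.sum_eq_zero
    intro d hd
    rw [Finset.mem_filter] at hd
    have hv' : ¬ On' p a s t (r j) d.fst := by rw [hd.2]; exact hv
    simp only [if_neg hv', zero_mul, mul_zero]

/-- (3) a lune has no torque at the other meridians -/
theorem At_zero (H : M.Std p h) (F : M.Fan p a l s t) (G : M.FanL p a l s t k th r lam)
    {i j : ℕ} (hi : i < k) (hj : j ≤ k) (n1 : r j ≠ r i) (n2 : r j ≠ r (i + 1)) :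
    At p a s t om (fun w => l w = lam i) (r j) = 0 := by
  classical
  unfold At
  apply Finset.sum_eq_zero
  intro v _
  by_cases hv : On' p a s t (r j) v
  · rw [if_pos hv]
    unfold Bt
    apply Finset.sum_eq_zero
    intro d hd
    rw [Finset.mem_filter] at hd
    rw [if_neg]
    intro hin
    rcases on_lune H F G hi hj hin.1 (by rw [hd.2]; exact hv) with h3 | h3
    · exact n1 h3
    · exact n2 h3
  · rw [if_neg hv]

/-- all lunes have the same torque -/
theorem At_eq (H : M.Std p h) (F : M.Fan p a l s t) (G : M.FanL p a l s t k th r lam)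
    (S : M.Swing p a l s t om) : ∀ i, i < k →
    At p a s t om (fun w => l w = lam i) (r i) = At p a s t om (fun w => l w = lam 0) (r 0) := by
  intro i
  induction i with
  | zero => intro _; rfl
  | succ n ih =>
    intro hn
    have h1 := net_zero H F G S (j := n + 1) (by omega)
    have h2 : ∑ i ∈ Finset.range k, At p a s t om (fun w => l w = lam i) (r (n + 1))
        = At p a s t om (fun w => l w = lam n) (r (n + 1))
          + At p a s t om (fun w => l w = lam (n + 1)) (r (n + 1)) := by
      have hne : n ≠ n + 1 := by omega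
      rw [← Finset.sum_pair (f := fun i => At p a s t om (fun w => l w = lam i) (r (n + 1))) hne]
      symm
      apply Finset.sum_subset
      · intro m hm
        rw [Finset.mem_insert, Finset.mem_singleton] at hm
        rw [Finset.mem_range]
        omega
      · intro m hm hm'
        rw [Finset.mem_range] at hm
        rw [Finset.mem_insert, Finset.mem_singleton] at hm'
        push Not at hm'
        apply At_zero H F G hm (by omega)
        · rcases Nat.lt_or_ge m (n + 1) with h3 | h3
          · exact (r_inj F.ua G h3 (by omega) (Or.inr (by omega))).symm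
          · exact r_inj F.ua G (by omega) (by omega) (Or.inl (by omega))
        · rcases Nat.lt_or_ge (m + 1) (n + 1) with h3 | h3
          · exact (r_inj F.ua G h3 (by omega) (Or.inl (by omega))).symm
          · exact r_inj F.ua G (by omega) (by omega) (Or.inl (by omega))
    have h4 := At_sum H F G S (i := n) (by omega)
    have h5 := ih (by omega)
    linarith

/-- sign of the torques -/
theorem tau_sign (H : M.Std p h) (F : M.Fan p a l s t) (G : M.FanL p a l s t k th r lam)
    (S : M.Swing p a l s t om) {i : ℕ} (hi : i < k) {d : M.G.Dart}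
    (hd : M.InD (fun w => l w = lam i) d) :
    (On' p a s t (r i) d.fst → 0 ≤ tau p a om d) ∧
      (On' p a s t (r (i + 1)) d.fst → tau p a om d ≤ 0) := by
  have hsnd : 0 ≤ det3 a (r i) (p d.snd) ∧ 0 ≤ det3 a (p d.snd) (r (i + 1)) :=
    G.lune i hi d.symm hd.2
  constructor
  · intro hon
    obtain ⟨n1, n2⟩ := ne_pole H F hon.2.1 hon.2.2
    obtain ⟨c, hc, hcx⟩ := onR_pos F.ua (H.inc.unit _) hon.1 n1 n2
    unfold tau
    rw [(det3_of_ray hcx _).2]
    exact mul_nonneg (S.wt.nonneg d) (mul_nonneg hc.le hsnd.1)
  · intro hon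
    obtain ⟨n1, n2⟩ := ne_pole H F hon.2.1 hon.2.2
    obtain ⟨c, hc, hcx⟩ := onR_pos F.ua (H.inc.unit _) hon.1 n1 n2
    unfold tau
    rw [(det3_of_ray hcx _).2]
    have e : det3 a (r (i + 1)) (p d.snd) = - det3 a (p d.snd) (r (i + 1)) := by
      simp only [det3]; ring
    rw [e]
    have := mul_nonneg (S.wt.nonneg d) (mul_nonneg hc.le hsnd.2)
    linarith

/-- a lune without torque at its meridians has no torque at any vertex -/
theorem Bt_all_zero (H : M.Std p h) (F : M.Fan p a l s t) (G : M.FanL p a l s t k th r lam)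
    (S : M.Swing p a l s t om) {i : ℕ} (hi : i < k)
    (h0 : At p a s t om (fun w => l w = lam i) (r i) = 0) (v : V) :
    Bt p a om (fun w => l w = lam i) v = 0 := by
  classical
  have h0' : At p a s t om (fun w => l w = lam i) (r (i + 1)) = 0 := by
    have := At_sum H F G S hi
    linarith
  by_cases h1 : On' p a s t (r i) v
  · have hnn : ∀ v ∈ Finset.univ, 0 ≤ if On' p a s t (r i) v then
        Bt p a om (fun w => l w = lam i) v else 0 := by
      intro v _
      by_cases hv : On' p a s t (r i) v
      · rw [if_pos hv]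
        unfold Bt
        apply Finset.sum_nonneg
        intro d hd
        rw [Finset.mem_filter] at hd
        by_cases hin : M.InD (fun w => l w = lam i) d
        · rw [if_pos hin]
          exact (tau_sign H F G S hi hin).1 (by rw [hd.2]; exact hv)
        · rw [if_neg hin]
      · rw [if_neg hv]
    have := (Finset.sum_eq_zero_iff_of_nonneg hnn).mp h0 v (Finset.mem_univ v)
    rwa [if_pos h1] at this
  · by_cases h2 : On' p a s t (r (i + 1)) v
    · have hnn : ∀ v ∈ Finset.univ, (if On' p a s t (r (i + 1)) v then
          Bt p a om (fun w => l w = lam i) v else 0) ≤ 0 := by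
        intro v _
        by_cases hv : On' p a s t (r (i + 1)) v
        · rw [if_pos hv]
          unfold Bt
          apply Finset.sum_nonpos
          intro d hd
          rw [Finset.mem_filter] at hd
          by_cases hin : M.InD (fun w => l w = lam i) d
          · rw [if_pos hin]
            exact (tau_sign H F G S hi hin).2 (by rw [hd.2]; exact hv)
          · rw [if_neg hin]
        · rw [if_neg hv]
      have := (Finset.sum_eq_zero_iff_of_nonpos hnn).mp h0' v (Finset.mem_univ v)
      rwa [if_pos h2] at this
    · exact Bt_mer H F G S hi h1 h2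

end

end D67

theorem st_TQ (hSh : ST_SHEAR) : ST_TQ := by
  classical
  intro V _ _ M L p h a l s t k th r lam om H F G S hno i0 hi0
  by_contra hcon
  push Not at hcon
  -- no torque in lune i0
  have hA0 : D67.At p a s t om (fun w => l w = lam i0) (r i0) = 0 := by
    unfold D67.At
    apply Finset.sum_eq_zero
    intro v _
    by_cases hv : D67.On' p a s t (r i0) v
    · rw [if_pos hv]
      unfold D67.Bt
      apply Finset.sum_eq_zero
      intro d _
      by_cases hin : M.InD (fun w => l w = lam i0) d
      · rw [if_pos hin]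
        unfold D67.tau
        by_cases ho : om d = 0
        · rw [ho, zero_mul]
        · rw [hcon d hin ho, mul_zero]
      · rw [if_neg hin]
    · rw [if_neg hv]
  have hall : ∀ i, i < k → D67.At p a s t om (fun w => l w = lam i) (r i) = 0 := by
    intro i hi
    rw [D67.At_eq H F G S i hi, ← D67.At_eq H F G S i0 hi0]
    exact hA0
  -- every lune is free of stress
  have hfree : ∀ i, i < k → ∀ d, M.InD (fun w => l w = lam i) d → om d = 0 := by
    intro i hi d0 hd0
    obtain ⟨oi, hoi⟩ : ∃ oi : M.G.Dart → ℝ, oi = fun d =>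
      if M.InD (fun w => l w = lam i) d then om d else 0 := ⟨_, rfl⟩
    have hoi1 : ∀ d, M.InD (fun w => l w = lam i) d → oi d = om d := by
      intro d hd; rw [hoi]; simp only; rw [if_pos hd]
    have hoi2 : ∀ d, ¬ M.InD (fun w => l w = lam i) d → oi d = 0 := by
      intro d hd; rw [hoi]; simp only; rw [if_neg hd]
    have hin : ∀ d, oi d ≠ 0 → M.InD (fun w => l w = lam i) d := by
      intro d hd
      by_contra hc
      exact hd (hoi2 d hc)
    have hw : M.Wt oi := by
      constructor
      · intro d
        by_cases hd : M.InD (fun w => l w = lam i) d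
        · rw [hoi1 d hd]; exact S.wt.nonneg d
        · rw [hoi2 d hd]
      · intro d
        by_cases hd : M.InD (fun w => l w = lam i) d
        · rw [hoi1 d hd, hoi1 _ (D67.InD_symm.mpr hd)]; exact S.wt.symm d
        · rw [hoi2 d hd, hoi2 _ (fun h => hd (D67.InD_symm.mp h))]
    have hshear := hSh V M p a (r i) oi H.inc.unit F.ua (D67.r_unit F.ua G hi.le).1
      (D67.r_unit F.ua G hi.le).2 hw
      (fun d hd => (G.lune i hi d (hin d hd).1).1) (by
        apply Finset.sum_eq_zero
        intro v _
        have hB := D67.Bt_all_zero H F G S hi (hall i hi) v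
        have hBe : ∑ d ∈ Finset.univ.filter (fun d : M.G.Dart => d.fst = v),
            oi d * det3 a (p d.fst) (p d.snd) = D67.Bt p a om (fun w => l w = lam i) v := by
          unfold D67.Bt D67.tau
          apply Finset.sum_congr rfl
          intro d _
          by_cases hd : M.InD (fun w => l w = lam i) d
          · rw [if_pos hd, hoi1 d hd]
          · rw [if_neg hd, hoi2 d hd, zero_mul]
        rw [hBe, hB, mul_zero])
    have hz := hno i hi oi hw hin (by
      intro v hv
      by_cases hE : M.OnE l v
      · exfalso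
        obtain ⟨d, hdv, hd⟩ := hE
        apply hd
        have e1 : l (M.fc d) = lam i := hv d hdv
        have e2 : l (M.fc (M.rot d)) = lam i := hv (M.rot d) ((D67.rot_fst d).trans hdv)
        rw [D67.fc_rot] at e2
        exact e1.trans e2.symm
      · have h1 := S.eq v hE
        unfold PlaneGraph.EqAt at h1 ⊢
        rw [← h1]
        apply Finset.sum_congr rfl
        intro d hd
        rw [Finset.mem_filter] at hd
        have e1 : l (M.fc d) = lam i := hv d hd.2
        have e2 : l (M.fc (M.rot d)) = lam i := hv (M.rot d) ((D67.rot_fst d).trans hd.2)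
        rw [D67.fc_rot] at e2
        rw [hoi1 d ⟨e1, e2⟩]) hshear
    rw [← hoi1 d0 hd0]
    exact hz d0
  obtain ⟨d, hd⟩ := S.ne
  apply hd
  by_cases hE : M.E0 l d
  · exact S.zero d hE
  · obtain ⟨i, hi, hli⟩ := G.lams (M.fc d)
    have hsy : l (M.fc d.symm) = l (M.fc d) := by
      by_contra hne
      exact hE (fun h => hne h.symm)
    exact hfree i hi d ⟨hli, hsy.trans hli⟩

end Pool.Agent.Helper30.N9
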