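import Pool.Agent.Helper67.N9.Cone

/-! MP_9b91d1_co, block GEO: rows G0, G1, G2, G3, G4 (helper67). -/

namespace N9.G67

open Filter Topology N9

section
variable {I K : Type} [Fintype I] [DecidableEq I] [Fintype K] [DecidableEq K]
  {p : I → V3} {h : I → ℝ} {x : K → V3}

theorem st_G0 : ST_G0 := by
  intro I K _ _ _ _ p h x P k
  exact g0 P k

/-- N1 in the form of `sides`. -/
theorem n1 (P : Poly p h x) (v : V3) :
    ∃ k, ∀ e ∈ sides p h x k, 0 ≤ dt (p e.1) (p e.2) v := by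
  haveI := nonempty_K P
  obtain ⟨k, hk⟩ := exists_cone P v
  exact ⟨k, fun e he => hk e.1 e.2 (mem_sides.mp he)⟩

/-- EP in the form of `sides`. -/
theorem ep (P : Poly p h x) (k : K) (e : I × I) (he : e ∈ sides p h x k) :
    ∃ y, ip (p e.1) y = h e.1 ∧ ip (p e.2) y = h e.2 ∧
      ∀ m, m ≠ e.1 → m ≠ e.2 → ip (p m) y < h m :=
  edge_point P (mem_sides.mp he)

theorem st_G2 : ST_G2 := by
  intro I K _ _ _ _ p h x P r hr i
  obtain ⟨z, hz, hz'⟩ := P.facet i
  obtain ⟨k, hk⟩ := exists_vert_facet P i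
  have hk' := mem_actAt.mp hk
  -- the point x k + s (z - x k)
  have hcont : Tendsto (fun s : ℝ => nsq ((x k + s • (z - x k)) - x k)) (𝓝[>] 0) (𝓝 0) := by
    have h1 : Tendsto (fun s : ℝ => s ^ 2 * nsq (z - x k)) (𝓝 0)
        (𝓝 (0 ^ 2 * nsq (z - x k))) :=
      (tendsto_id.pow 2).mul tendsto_const_nhds
    have h2 : (0 : ℝ) ^ 2 * nsq (z - x k) = 0 := by ring
    rw [h2] at h1
    refine (h1.mono_left nhdsWithin_le_nhds).congr (fun s => ?_)
    simp only [nsq_eq, Pi.add_apply, Pi.sub_apply, Pi.smul_apply, smul_eq_mul]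
    ring
  have h1 : ∀ᶠ s in 𝓝[>] (0 : ℝ), s < 1 := by
    have : Set.Iio (1 : ℝ) ∈ 𝓝 (0 : ℝ) := Iio_mem_nhds one_pos
    exact mem_nhdsWithin_of_mem_nhds this
  obtain ⟨s, ⟨hs1, hs2⟩, hs0⟩ := ((hcont.eventually_lt_const
    (by positivity : (0 : ℝ) < r ^ 2)).and h1 |>.and self_mem_nhdsWithin).exists
  have hs0' : 0 < s := hs0
  refine ⟨k, x k + s • (z - x k), hs1, ?_, ?_⟩
  · rw [ip_add_right, ip_smul_right, ip_sub_right, hz, hk']; ring
  · intro j hj
    rw [ip_add_right, ip_smul_right, ip_sub_right]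
    have e1 := hz' j hj
    have e2 := P.mem k j
    nlinarith

theorem st_G3 : ST_G3 := by
  intro I K _ _ _ _ p h x P k e he
  obtain ⟨k', t, -, -, hs⟩ := side_other P (mem_sides.mp he)
  exact ⟨k', mem_sides'.mpr hs, fun k'' hk'' => side_unique P (mem_sides'.mp hk'') hs⟩

theorem st_G4 : ST_G4 := by
  intro I K _ _ _ _ p h x P A hA hcl
  classical
  by_contra hne
  obtain ⟨k1, hk1⟩ : ∃ k, k ∉ A := by
    by_contra hcon
    push Not at hcon
    exact hne (Set.eq_univ_of_forall hcon)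
  set c : V3 := ∑ s ∈ actAt p h (x k1), p s with hc
  let F : Finset K := Finset.univ.filter (fun k => k ∈ A)
  have hF : F.Nonempty := by
    obtain ⟨k, hk⟩ := hA
    exact ⟨k, by simp [F, hk]⟩
  obtain ⟨k, hkF, hmax⟩ := Finset.exists_max_image F (fun k => ip c (x k)) hF
  have hkA : k ∈ A := by simpa [F] using hkF
  have hcone : ∀ i j, Side p (actAt p h (x k)) i j → 0 ≤ dt (p i) (p j) c := by
    intro i j hs
    obtain ⟨k', t, ht, hx, hs'⟩ := side_other P hs
    have hk'A : k' ∈ A := hcl k hkA (i, j) (mem_sides'.mpr hs) k' (mem_sides'.mpr hs')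
    have h1 : ip c (x k') ≤ ip c (x k) := hmax k' (by simp [F, hk'A])
    rw [hx, ip_sub_right, ip_smul_right, ip_crv] at h1
    by_contra h2
    push Not at h2
    nlinarith
  have h1 : ip c (x k1) ≤ ip c (x k) := cone_le P (P.mem k1) hcone
  have hne' : x k ≠ x k1 := by
    intro he
    exact hk1 (P.inj he ▸ hkA)
  have h2 : ip c (x k) < ip c (x k1) :=
    cone_lt P (P.mem k) (fun i j hs => dt_sum_pos (g0 P k1) hs) hne'
  linarith

end

end N9.G67
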