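import Pool.Agent.Helper67.N9.G04

/-! MP_9b91d1_co, block GEO: row G1 (helper67). -/

namespace N9.G67

open Filter Topology N9

section
variable {I K : Type} [Fintype I] [DecidableEq I] [Fintype K] [DecidableEq K]
  {p : I → V3} {h : I → ℝ} {x : K → V3}

/-- a point of the polytope with at most two active facets lies on an edge, a facet or inside -/
theorem exists_side_of_card (P : Poly p h x) {y : V3} (hy : ∀ i, ip (p i) y ≤ h i)
    (hc : (actAt p h y).card ≤ 2) :
    ∃ k, ∃ e ∈ sides p h x k, ∀ i ∈ actAt p h y, i = e.1 ∨ i = e.2 := by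
  have hone : ∀ k i, i ∈ actAt p h (x k) → (∀ l ∈ actAt p h y, l = i) →
      ∃ k, ∃ e ∈ sides p h x k, ∀ i ∈ actAt p h y, i = e.1 ∨ i = e.2 := by
    intro k i hi hl
    obtain ⟨j, hj⟩ := (g0 P k).exists_succ hi
    exact ⟨k, (i, j), mem_sides'.mpr hj, fun l hl' => Or.inl (hl l hl')⟩
  rcases (actAt p h y).eq_empty_or_nonempty with h0 | ⟨a, ha⟩
  · obtain ⟨k⟩ := nonempty_K P
    have h3 := card_act P k
    have h4 : 0 < (actAt p h (x k)).card := by omega
    obtain ⟨i, hi⟩ := Finset.card_pos.mp h4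
    exact hone k i hi (by rw [h0]; simp)
  · by_cases hb : ∃ b ∈ actAt p h y, b ≠ a
    · obtain ⟨b, hb, hba⟩ := hb
      have hall : ∀ i ∈ actAt p h y, i = a ∨ i = b := by
        intro i hi
        by_contra hcon
        push Not at hcon
        have : 2 < (actAt p h y).card :=
          Finset.two_lt_card.mpr ⟨i, hi, a, ha, b, hb, hcon.1, hcon.2, hba.symm⟩
        omega
      obtain ⟨k, t, -, -, hs⟩ := edge_end P hba.symm (mem_actAt.mp ha) (mem_actAt.mp hb)
        (fun l h1 h2 => lt_of_le_of_ne (hy l) (fun h3 => by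
          rcases hall l (mem_actAt.mpr h3) with h4 | h4
          · exact h1 h4
          · exact h2 h4))
      exact ⟨k, (a, b), mem_sides'.mpr hs, hall⟩
    · push Not at hb
      obtain ⟨k, hk⟩ := exists_vert P hy
      exact hone k a (hk a ha) hb

omit [DecidableEq I] [Fintype K] [DecidableEq K] in
theorem bounded (P : Poly p h x) :
    ∃ R : ℝ, ∀ y : V3, (∀ i, ip (p i) y - h i ≤ 1) → y ∈ Metric.closedBall (0 : V3) R := by
  obtain ⟨c, hc, hb⟩ := P.bdd
  set H : ℝ := ∑ i, h i with hH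
  have hle : ∀ i, h i ≤ H := fun i =>
    Finset.single_le_sum (fun j _ => (P.hpos j).le) (Finset.mem_univ i)
  refine ⟨(H + 1) / c, fun y hy => ?_⟩
  obtain ⟨i, hi⟩ := hb y
  have h1 : c * Real.sqrt (nsq y) ≤ H + 1 := by linarith [hy i, hle i]
  have h2 : Real.sqrt (nsq y) ≤ (H + 1) / c := by
    rw [le_div_iff₀ hc]; linarith
  rw [mem_closedBall_zero_iff]
  have h0 : 0 ≤ (H + 1) / c := (Real.sqrt_nonneg _).trans h2
  rw [pi_norm_le_iff_of_nonneg h0]
  intro j
  refine le_trans ?_ h2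
  apply Real.le_sqrt_of_sq_le
  rw [Real.norm_eq_abs, sq_abs, nsq]
  exact Finset.single_le_sum (f := fun i => y i ^ 2) (fun i _ => sq_nonneg _)
    (Finset.mem_univ j)

theorem continuous_ip (a : V3) : Continuous (fun y : V3 => ip a y) := by
  unfold ip
  fun_prop

theorem continuous_nsq_sub (a : V3) : Continuous (fun y : V3 => nsq (y - a)) := by
  unfold nsq
  simp only [Pi.sub_apply]
  fun_prop

theorem st_G1 : ST_G1 := by
  intro I K _ _ _ _ p h x P r hr
  by_contra hcon
  push Not at hcon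
  have hseq : ∀ n : ℕ, ∃ y : V3, (∀ i, ip (p i) y - h i ≤ 1 / ((n : ℝ) + 1)) ∧
      (∀ k, nsq (y - x k) < r ^ 2 → ∃ i, i ∉ actAt p h (x k) ∧
        -(1 / ((n : ℝ) + 1)) < ip (p i) y - h i) ∧
      ∀ k, ∀ e ∈ sides p h x k, ∃ i, i ≠ e.1 ∧ i ≠ e.2 ∧
        -(1 / ((n : ℝ) + 1)) < ip (p i) y - h i := by
    intro n
    obtain ⟨y, hy1, hy2, hy3⟩ := hcon (1 / ((n : ℝ) + 1)) (by positivity)
    exact ⟨y, hy1, hy2, hy3⟩
  choose y hy1 hy2 hy3 using hseq
  obtain ⟨R, hR⟩ := bounded P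
  have hyR : ∀ n, y n ∈ Metric.closedBall (0 : V3) R := by
    intro n
    apply hR
    intro i
    refine (hy1 n i).trans ?_
    rw [div_le_one (by positivity)]
    have : (0 : ℝ) ≤ n := Nat.cast_nonneg n
    linarith
  obtain ⟨a, -, φ, hφ, hlim⟩ := (isCompact_closedBall (0 : V3) R).tendsto_subseq hyR
  have hd : Tendsto (fun n => 1 / (((φ n : ℕ) : ℝ) + 1)) atTop (𝓝 0) :=
    tendsto_one_div_add_atTop_nhds_zero_nat.comp hφ.tendsto_atTop
  have hip : ∀ i, Tendsto (fun n => ip (p i) (y (φ n)) - h i) atTop (𝓝 (ip (p i) a - h i)) := by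
    intro i
    exact (((continuous_ip (p i)).tendsto a).comp hlim).sub tendsto_const_nhds
  have ha : ∀ i, ip (p i) a ≤ h i := by
    intro i
    have := le_of_tendsto_of_tendsto' (hip i) hd (fun n => hy1 (φ n) i)
    linarith
  have hneg : ∀ i, i ∉ actAt p h a → ∀ᶠ n in atTop,
      ip (p i) (y (φ n)) - h i ≤ -(1 / (((φ n : ℕ) : ℝ) + 1)) := by
    intro i hi
    have h1 : ip (p i) a - h i < 0 := by
      have := lt_of_le_of_ne (ha i) (fun h2 => hi (mem_actAt.mpr h2))
      linarith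
    have h2 : Tendsto (fun n => ip (p i) (y (φ n)) - h i + 1 / (((φ n : ℕ) : ℝ) + 1)) atTop
        (𝓝 (ip (p i) a - h i + 0)) := (hip i).add hd
    rw [add_zero] at h2
    filter_upwards [h2.eventually_lt_const h1] with n hn
    linarith
  have hneg' : ∀ᶠ n in atTop, ∀ i, i ∉ actAt p h a →
      ip (p i) (y (φ n)) - h i ≤ -(1 / (((φ n : ℕ) : ℝ) + 1)) := by
    rw [Filter.eventually_all]
    intro i
    by_cases hi : i ∈ actAt p h a
    · exact Filter.Eventually.of_forall (fun n h1 => absurd hi h1)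
    · filter_upwards [hneg i hi] with n hn _
      exact hn
  by_cases hc : 3 ≤ (actAt p h a).card
  · obtain ⟨k, hk⟩ := vert_of_card P ha hc
    have hn : Tendsto (fun n => nsq (y (φ n) - x k)) atTop (𝓝 (nsq (a - x k))) :=
      ((continuous_nsq_sub (x k)).tendsto a).comp hlim
    have h0 : nsq (a - x k) = 0 := by
      rw [hk, sub_self]; simp [nsq]
    rw [h0] at hn
    obtain ⟨n, hn1, hn2⟩ := ((hn.eventually_lt_const (by positivity : (0 : ℝ) < r ^ 2)).and
      hneg').exists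
    obtain ⟨i, hi, hlt⟩ := hy2 (φ n) k hn1
    rw [hk] at hi
    exact absurd (hn2 i hi) (not_le.mpr hlt)
  · obtain ⟨k, e, he, hall⟩ := exists_side_of_card P ha (by omega)
    obtain ⟨n, hn⟩ := hneg'.exists
    obtain ⟨i, hi1, hi2, hlt⟩ := hy3 (φ n) k e he
    refine absurd (hn i ?_) (not_le.mpr hlt)
    intro hi
    rcases hall i hi with h1 | h1
    · exact hi1 h1
    · exact hi2 h1

end

end N9.G67
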