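import Pool.Agent.Helper67.N9.G04

/-! MP_9b91d1_co, block GEO: row G5 (helper67). -/

namespace N9.G67

open N9

section
variable {I : Type} [DecidableEq I] {p : I → V3} {S : Finset I}

/-- The sides of a polygon form one cycle. -/
theorem star_conn (hS : ConvPos p S) {B : Finset I} (hB : B ⊆ S) (hne : B.Nonempty)
    (hcl : ∀ i ∈ B, ∀ j, Side p S i j → j ∈ B) : B = S := by
  classical
  by_contra hcon
  obtain ⟨m, hmS, hmB⟩ : ∃ m ∈ S, m ∉ B := by
    by_contra h1
    push Not at h1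
    exact hcon (Finset.Subset.antisymm hB h1)
  have hcard : 3 ≤ B.card := by
    obtain ⟨i, hi⟩ := hne
    obtain ⟨j, hj⟩ := hS.exists_succ (hB hi)
    have hjB := hcl i hi j hj
    obtain ⟨l, hl⟩ := hS.exists_succ (hB hjB)
    have hlB := hcl j hjB l hl
    have : 2 < B.card := Finset.two_lt_card.mpr
      ⟨i, hi, j, hjB, l, hlB, hj.2.2.1, Side.ne_of_card hS hj hl, hl.2.2.1⟩
    omega
  have hCB : ConvPos p B := by
    refine ⟨?_, ?_, hcard⟩
    · obtain ⟨g, hg⟩ := hS.pointed
      exact ⟨g, fun i hi => hg i (hB hi)⟩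
    · intro i hi
      obtain ⟨y, hy0, hy⟩ := hS.expo i (hB hi)
      exact ⟨y, hy0, fun j hj hji => hy j (hB hj) hji⟩
  have hside : ∀ i j, Side p B i j → Side p S i j := by
    intro i j hs
    obtain ⟨j', hj'⟩ := hS.exists_succ (hB hs.1)
    have hj'B := hcl i hs.1 j' hj'
    have hs' : Side p B i j' :=
      ⟨hs.1, hj'B, hj'.2.2.1, fun k hk h1 h2 => hj'.2.2.2 k (hB hk) h1 h2⟩
    have : j = j' := Side.unique_right hs hs'
    rw [this]; exact hj'
  obtain ⟨i, j, hs, ga, al, be, hga, hal, hbe, hv, -, -⟩ :=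
    cone_tri hCB (v := p m) (fun i j hs => side_dt_nonneg (hside i j hs) hmS)
      (fun i j hs => dt_sum_pos hCB hs)
  obtain ⟨y, hy0, hy⟩ := hS.expo m hmS
  have hneg : ∀ s ∈ B, ip (p s) y < 0 := by
    intro s hs
    apply hy s (hB hs)
    rintro rfl
    exact hmB hs
  have hsum : ip (∑ s ∈ B, p s) y < 0 := by
    rw [ip_sum_left]
    exact Finset.sum_neg hneg ⟨i, hs.1⟩
  have hi := hneg i hs.1
  have hj := hneg j hs.2.1
  have h0 : ga * ip (∑ s ∈ B, p s) y + al * ip (p i) y + be * ip (p j) y = 0 := by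
    rw [← hy0, hv, ip_add_left, ip_add_left, ip_smul_left, ip_smul_left, ip_smul_left]
  have h1 : ga * ip (∑ s ∈ B, p s) y ≤ 0 := mul_nonpos_of_nonneg_of_nonpos hga hsum.le
  have h2 : al * ip (p i) y ≤ 0 := mul_nonpos_of_nonneg_of_nonpos hal hi.le
  have h3 : be * ip (p j) y ≤ 0 := mul_nonpos_of_nonneg_of_nonpos hbe hj.le
  have e1 : ga = 0 := by
    have : ga * ip (∑ s ∈ B, p s) y = 0 := by linarith
    exact (mul_eq_zero.mp this).resolve_right hsum.ne
  have e2 : al = 0 := by
    have : al * ip (p i) y = 0 := by linarith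
    exact (mul_eq_zero.mp this).resolve_right hi.ne
  have e3 : be = 0 := by
    have : be * ip (p j) y = 0 := by linarith
    exact (mul_eq_zero.mp this).resolve_right hj.ne
  rw [e1, e2, e3, zero_smul, zero_smul, zero_smul, add_zero, add_zero] at hv
  exact hS.ne_zero hmS hv

/-- sums over the sides of a polygon -/
theorem sum_fst (hS : ConvPos p S) {E : Finset (I × I)}
    (hE : ∀ e, e ∈ E ↔ Side p S e.1 e.2) (g : I → ℝ) : ∑ e ∈ E, g e.1 = ∑ i ∈ S, g i := by
  apply Finset.sum_bij (fun e _ => e.1)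
  · intro e he
    exact ((hE e).mp he).1
  · intro e he e' he' heq
    have h1 := (hE e).mp he
    have h2 := (hE e').mp he'
    rw [← heq] at h2
    exact Prod.ext heq (Side.unique_right h1 h2)
  · intro i hi
    obtain ⟨j, hj⟩ := hS.exists_succ hi
    exact ⟨(i, j), (hE _).mpr hj, rfl⟩
  · intro e _
    rfl

theorem sum_snd (hS : ConvPos p S) {E : Finset (I × I)}
    (hE : ∀ e, e ∈ E ↔ Side p S e.1 e.2) (g : I → ℝ) : ∑ e ∈ E, g e.2 = ∑ i ∈ S, g i := by
  apply Finset.sum_bij (fun e _ => e.2)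
  · intro e he
    exact ((hE e).mp he).2.1
  · intro e he e' he' heq
    have h1 := (hE e).mp he
    have h2 := (hE e').mp he'
    rw [← heq] at h2
    exact Prod.ext (Side.unique_left h1 h2) heq
  · intro i hi
    obtain ⟨j, hj⟩ := hS.exists_pred hi
    exact ⟨(j, i), (hE _).mpr hj, rfl⟩
  · intro e _
    rfl

end

section
variable {I K : Type} [Fintype I] [DecidableEq I] [Fintype K] [DecidableEq K]
  {p : I → V3} {h : I → ℝ} {x : K → V3}

/-- the triangle of the fan over the side `e` of the vertex `k` -/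
def tr (k : K) (e : I × I) : (I ⊕ K) × (I ⊕ K) × (I ⊕ K) :=
  (Sum.inr k, Sum.inl e.1, Sum.inl e.2)

theorem mem_fanT {t : (I ⊕ K) × (I ⊕ K) × (I ⊕ K)} :
    t ∈ fanT p h x ↔ ∃ k, ∃ e ∈ sides p h x k, tr k e = t := by
  simp only [fanT, Finset.mem_biUnion, Finset.mem_univ, true_and, Finset.mem_image, tr]

theorem sum_fanT {A : Type*} [AddCommMonoid A] (f : (I ⊕ K) × (I ⊕ K) × (I ⊕ K) → A) :
    ∑ t ∈ fanT p h x, f t = ∑ k, ∑ e ∈ sides p h x k, f (tr k e) := by
  rw [fanT, Finset.sum_biUnion]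
  · apply Finset.sum_congr rfl
    intro k _
    rw [Finset.sum_image]
    · rfl
    · intro e _ e' _ heq
      simp only [Prod.mk.injEq, Sum.inl.injEq, true_and] at heq
      exact Prod.ext heq.1 heq.2
  · intro k _ k' _ hkk
    rw [Function.onFun, Finset.disjoint_left]
    intro t ht ht'
    simp only [Finset.mem_image] at ht ht'
    obtain ⟨e, -, rfl⟩ := ht
    obtain ⟨e', -, heq⟩ := ht'
    simp only [Prod.mk.injEq, Sum.inr.injEq] at heq
    exact hkk heq.1.symm

theorem sum_sides_antisymm (P : Poly p h x) (θ : I → I → ℝ) (hθ : ∀ i j, θ j i = - θ i j) :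
    ∑ k, ∑ e ∈ sides p h x k, θ e.1 e.2 = 0 := by
  classical
  have hcomm : ∑ k, ∑ e ∈ sides p h x k, θ e.1 e.2
      = ∑ e : I × I, ((Finset.univ.filter (fun k => e ∈ sides p h x k)).card : ℝ) * θ e.1 e.2 := by
    have h1 : ∀ k : K, ∑ e ∈ sides p h x k, θ e.1 e.2
        = ∑ e : I × I, if e ∈ sides p h x k then θ e.1 e.2 else 0 := by
      intro k
      rw [← Finset.sum_filter]
      apply Finset.sum_congr _ (fun _ _ => rfl)
      ext e; simp
    rw [Finset.sum_congr rfl (fun k _ => h1 k), Finset.sum_comm]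
    apply Finset.sum_congr rfl
    intro e _
    rw [← Finset.sum_filter, Finset.sum_const, nsmul_eq_mul]
  have hle : ∀ e : I × I, (Finset.univ.filter (fun k => e ∈ sides p h x k)).card ≤ 1 := by
    intro e
    rw [Finset.card_le_one]
    intro k hk k' hk'
    simp only [Finset.mem_filter, Finset.mem_univ, true_and] at hk hk'
    exact side_unique P (mem_sides.mp hk) (mem_sides.mp hk')
  have himp : ∀ i j : I, 0 < (Finset.univ.filter (fun k => (i, j) ∈ sides p h x k)).card →
      0 < (Finset.univ.filter (fun k => (j, i) ∈ sides p h x k)).card := by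
    intro i j hpos
    obtain ⟨k, hk⟩ := Finset.card_pos.mp hpos
    simp only [Finset.mem_filter, Finset.mem_univ, true_and] at hk
    obtain ⟨k', t, -, -, hs⟩ := side_other P (mem_sides'.mp hk)
    exact Finset.card_pos.mpr ⟨k', by simpa using mem_sides'.mpr hs⟩
  have hsym : ∀ i j : I, (Finset.univ.filter (fun k => (i, j) ∈ sides p h x k)).card
      = (Finset.univ.filter (fun k => (j, i) ∈ sides p h x k)).card := by
    intro i j
    have h1 := hle (i, j)
    have h2 := hle (j, i)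
    have h3 := himp i j
    have h4 := himp j i
    omega
  rw [hcomm]
  have hswap : ∑ e : I × I, ((Finset.univ.filter (fun k => e ∈ sides p h x k)).card : ℝ) *
      θ e.1 e.2 = ∑ e : I × I,
      ((Finset.univ.filter (fun k => (e.2, e.1) ∈ sides p h x k)).card : ℝ) * θ e.2 e.1 := by
    rw [← Equiv.sum_comp (Equiv.prodComm I I)]
    rfl
  have hneg : ∑ e : I × I,
      ((Finset.univ.filter (fun k => (e.2, e.1) ∈ sides p h x k)).card : ℝ) * θ e.2 e.1
      = - ∑ e : I × I, ((Finset.univ.filter (fun k => e ∈ sides p h x k)).card : ℝ) *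
        θ e.1 e.2 := by
    rw [← Finset.sum_neg_distrib]
    apply Finset.sum_congr rfl
    rintro ⟨i, j⟩ _
    simp only
    rw [hsym j i, hθ i j]
    ring
  linarith [hswap.trans hneg]

theorem fan_cl (P : Poly p h x) (θ : (I ⊕ K) → (I ⊕ K) → ℝ) (hθ : ∀ n m, θ m n = - θ n m) :
    ∑ t ∈ fanT p h x, (θ t.1 t.2.1 + θ t.2.1 t.2.2 + θ t.2.2 t.1) = 0 := by
  rw [sum_fanT]
  simp only [tr]
  have h1 : ∀ k : K, ∑ e ∈ sides p h x k,
      (θ (Sum.inr k) (Sum.inl e.1) + θ (Sum.inl e.1) (Sum.inl e.2)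
        + θ (Sum.inl e.2) (Sum.inr k))
      = ∑ e ∈ sides p h x k, θ (Sum.inl e.1) (Sum.inl e.2) := by
    intro k
    have h2 := sum_fst (g0 P k) (E := sides p h x k) (fun e => mem_sides)
      (fun i => θ (Sum.inr k) (Sum.inl i))
    have h3 := sum_snd (g0 P k) (E := sides p h x k) (fun e => mem_sides)
      (fun i => θ (Sum.inr k) (Sum.inl i))
    have h4 : ∑ e ∈ sides p h x k, θ (Sum.inl e.2) (Sum.inr k)
        = - ∑ e ∈ sides p h x k, θ (Sum.inr k) (Sum.inl e.2) := by
      rw [← Finset.sum_neg_distrib]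
      exact Finset.sum_congr rfl (fun e _ => hθ _ _)
    rw [Finset.sum_add_distrib, Finset.sum_add_distrib, h4, h2, h3]
    ring
  rw [Finset.sum_congr rfl (fun k _ => h1 k)]
  exact sum_sides_antisymm P (fun i j => θ (Sum.inl i) (Sum.inl j)) (fun i j => hθ _ _)

/-! ### Integer flows -/

/-- `κ` is the boundary of an antisymmetric integer chain on the triangles `T` -/
def Bd {N : Type} (T : Finset (N × N × N)) (κ : N × N × N → ℤ) : Prop :=
  ∃ μ : N → N → ℤ, (∀ n m, μ m n = - μ n m) ∧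
    ∀ t ∈ T, μ t.1 t.2.1 + μ t.2.1 t.2.2 + μ t.2.2 t.1 = κ t

theorem Bd.add {N : Type} {T : Finset (N × N × N)} {κ κ' : N × N × N → ℤ} (h1 : Bd T κ)
    (h2 : Bd T κ') : Bd T (fun t => κ t + κ' t) := by
  obtain ⟨μ, hμ, h⟩ := h1
  obtain ⟨μ', hμ', h'⟩ := h2
  refine ⟨fun n m => μ n m + μ' n m, fun n m => ?_, ?_⟩
  · show μ m n + μ' m n = -(μ n m + μ' n m)
    rw [hμ n m, hμ' n m]; ring
  intro t ht
  show μ t.1 t.2.1 + μ' t.1 t.2.1 + (μ t.2.1 t.2.2 + μ' t.2.1 t.2.2)
    + (μ t.2.2 t.1 + μ' t.2.2 t.1) = κ t + κ' t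
  rw [← h t ht, ← h' t ht]; ring

theorem Bd.smul {N : Type} {T : Finset (N × N × N)} {κ : N × N × N → ℤ} (c : ℤ)
    (h1 : Bd T κ) : Bd T (fun t => c * κ t) := by
  obtain ⟨μ, hμ, h⟩ := h1
  refine ⟨fun n m => c * μ n m, fun n m => ?_, ?_⟩
  · show c * μ m n = -(c * μ n m)
    rw [hμ n m]; ring
  intro t ht
  show c * μ t.1 t.2.1 + c * μ t.2.1 t.2.2 + c * μ t.2.2 t.1 = c * κ t
  rw [← h t ht]; ring

theorem Bd.zero {N : Type} (T : Finset (N × N × N)) : Bd T (fun _ => 0) :=
  ⟨fun _ _ => 0, fun _ _ => by simp, fun _ _ => by simp⟩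

theorem Bd.congr {N : Type} {T : Finset (N × N × N)} {κ κ' : N × N × N → ℤ} (h1 : Bd T κ)
    (h2 : ∀ t ∈ T, κ t = κ' t) : Bd T κ' := by
  obtain ⟨μ, hμ, h⟩ := h1
  exact ⟨μ, hμ, fun t ht => (h t ht).trans (h2 t ht)⟩

theorem Bd.sum {N ι : Type} {T : Finset (N × N × N)} (s : Finset ι)
    (κ : ι → N × N × N → ℤ) (h1 : ∀ i ∈ s, Bd T (κ i)) : Bd T (fun t => ∑ i ∈ s, κ i t) := by
  classical
  induction s using Finset.induction_on with
  | empty => simpa using Bd.zero T
  | insert a s ha ih =>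
    have := (h1 a (Finset.mem_insert_self a s)).add
      (ih (fun i hi => h1 i (Finset.mem_insert_of_mem hi)))
    exact this.congr (fun t _ => by rw [Finset.sum_insert ha])

/-- the unit at the triangle `t` -/
def dl {N : Type} [DecidableEq N] (t s : N × N × N) : ℤ := if s = t then 1 else 0

/-- two triangles that can be joined by a flow -/
def Rel {N : Type} [DecidableEq N] (T : Finset (N × N × N)) (t t' : N × N × N) : Prop :=
  Bd T (fun s => dl t s - dl t' s)

theorem Rel.refl {N : Type} [DecidableEq N] (T : Finset (N × N × N)) (t : N × N × N) :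
    Rel T t t := (Bd.zero T).congr (fun s _ => by ring)

theorem Rel.trans {N : Type} [DecidableEq N] {T : Finset (N × N × N)} {a b c : N × N × N}
    (h1 : Rel T a b) (h2 : Rel T b c) : Rel T a c :=
  (Bd.add h1 h2).congr (fun s _ => by ring)

theorem Rel.symm {N : Type} [DecidableEq N] {T : Finset (N × N × N)} {a b : N × N × N}
    (h1 : Rel T a b) : Rel T b a :=
  (Bd.smul (-1) h1).congr (fun s _ => by ring)

/-- the elementary chain on the directed edge `(a, b)` -/
theorem rel_of_edge {N : Type} [DecidableEq N] {T : Finset (N × N × N)} {t t' : N × N × N}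
    (a b : N)
    (h1 : ∀ s ∈ T, ((if s.1 = a ∧ s.2.1 = b then 1 else 0) + (if s.2.1 = a ∧ s.2.2 = b then 1
      else 0) + (if s.2.2 = a ∧ s.1 = b then 1 else 0) : ℤ) = dl t s)
    (h2 : ∀ s ∈ T, ((if s.1 = b ∧ s.2.1 = a then 1 else 0) + (if s.2.1 = b ∧ s.2.2 = a then 1
      else 0) + (if s.2.2 = b ∧ s.1 = a then 1 else 0) : ℤ) = dl t' s) : Rel T t t' := by
  refine ⟨fun n m => (if n = a ∧ m = b then 1 else 0) - (if n = b ∧ m = a then 1 else 0),
    ?_, ?_⟩
  · intro n m
    simp only [neg_sub, and_comm]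
  · intro s hs
    simp only
    rw [← h1 s hs, ← h2 s hs]
    ring

/-- neighbours in a star -/
theorem rel_star (P : Poly p h x) {k : K} {i j l : I} (h1 : Side p (actAt p h (x k)) i j)
    (h2 : Side p (actAt p h (x k)) j l) :
    Rel (fanT p h x) (tr k (i, j)) (tr k (j, l)) := by
  apply rel_of_edge (Sum.inl j) (Sum.inr k)
  · intro s hs
    obtain ⟨k', e, he, rfl⟩ := mem_fanT.mp hs
    have he' := mem_sides.mp he
    simp only [tr, dl, Sum.inl.injEq, Sum.inr.injEq, reduceCtorEq, false_and, and_false,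
      if_false, zero_add, add_zero, Prod.mk.injEq]
    by_cases hc : e.2 = j ∧ k' = k
    · obtain ⟨hc1, rfl⟩ := hc
      have : e.1 = i := by
        have h3 : Side p (actAt p h (x k')) e.1 j := hc1 ▸ he'
        exact Side.unique_left h3 h1
      simp [hc1, this]
    · rw [if_neg hc, if_neg]
      rintro ⟨h3, -, h4⟩
      exact hc ⟨h4, h3⟩
  · intro s hs
    obtain ⟨k', e, he, rfl⟩ := mem_fanT.mp hs
    have he' := mem_sides.mp he
    simp only [tr, dl, Sum.inl.injEq, Sum.inr.injEq, reduceCtorEq, false_and, and_false,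
      if_false, zero_add, add_zero, Prod.mk.injEq]
    by_cases hc : k' = k ∧ e.1 = j
    · obtain ⟨rfl, hc1⟩ := hc
      have : e.2 = l := by
        have h3 : Side p (actAt p h (x k')) j e.2 := hc1 ▸ he'
        exact Side.unique_right h3 h2
      simp [hc1, this]
    · rw [if_neg hc, if_neg]
      rintro ⟨h3, h4, -⟩
      exact hc ⟨h3, h4⟩

/-- neighbours across an edge of the polytope -/
theorem rel_cross (P : Poly p h x) {k k' : K} {i j : I} (h1 : Side p (actAt p h (x k)) i j)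
    (h2 : Side p (actAt p h (x k')) j i) :
    Rel (fanT p h x) (tr k (i, j)) (tr k' (j, i)) := by
  apply rel_of_edge (Sum.inl i) (Sum.inl j)
  · intro s hs
    obtain ⟨k'', e, he, rfl⟩ := mem_fanT.mp hs
    have he' := mem_sides.mp he
    simp only [tr, dl, Sum.inl.injEq, Sum.inr.injEq, reduceCtorEq, false_and, and_false,
      if_false, zero_add, add_zero, Prod.mk.injEq]
    by_cases hc : e.1 = i ∧ e.2 = j
    · have : k'' = k := by
        have h3 : Side p (actAt p h (x k'')) i j := hc.1 ▸ hc.2 ▸ he'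
        exact side_unique P h3 h1
      simp [hc, this]
    · rw [if_neg hc, if_neg]
      rintro ⟨-, h4⟩
      exact hc h4
  · intro s hs
    obtain ⟨k'', e, he, rfl⟩ := mem_fanT.mp hs
    have he' := mem_sides.mp he
    simp only [tr, dl, Sum.inl.injEq, Sum.inr.injEq, reduceCtorEq, false_and, and_false,
      if_false, zero_add, add_zero, Prod.mk.injEq]
    by_cases hc : e.1 = j ∧ e.2 = i
    · have : k'' = k' := by
        have h3 : Side p (actAt p h (x k'')) j i := hc.1 ▸ hc.2 ▸ he'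
        exact side_unique P h3 h2
      simp [hc, this]
    · rw [if_neg hc, if_neg]
      rintro ⟨-, h4⟩
      exact hc h4

theorem rel_all (P : Poly p h x) {k0 : K} {e0 : I × I} (h0 : e0 ∈ sides p h x k0) :
    ∀ k, ∀ e ∈ sides p h x k, Rel (fanT p h x) (tr k0 e0) (tr k e) := by
  classical
  -- star
  have hstar : ∀ k, (∃ e ∈ sides p h x k, Rel (fanT p h x) (tr k0 e0) (tr k e)) →
      ∀ e ∈ sides p h x k, Rel (fanT p h x) (tr k0 e0) (tr k e) := by
    rintro k ⟨e1, he1, hr1⟩
    let B : Finset I := (actAt p h (x k)).filter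
      (fun i => ∀ j, Side p (actAt p h (x k)) i j → Rel (fanT p h x) (tr k0 e0) (tr k (i, j)))
    have hBS : B = actAt p h (x k) := by
      apply star_conn (g0 P k) (Finset.filter_subset _ _)
      · refine ⟨e1.1, ?_⟩
        simp only [B, Finset.mem_filter]
        refine ⟨(mem_sides.mp he1).1, fun j hj => ?_⟩
        have : j = e1.2 := Side.unique_right hj (mem_sides.mp he1)
        rw [this]; exact hr1
      · intro i hi j hij
        simp only [B, Finset.mem_filter] at hi ⊢
        refine ⟨hij.2.1, fun l hl => ?_⟩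
        exact (hi.2 j hij).trans (rel_star P hij hl)
    intro e he
    have he' := mem_sides.mp he
    have h1 : e.1 ∈ B := by rw [hBS]; exact he'.1
    simp only [B, Finset.mem_filter] at h1
    exact h1.2 e.2 he'
  have hA := st_G4 I K p h x P
    {k | ∀ e ∈ sides p h x k, Rel (fanT p h x) (tr k0 e0) (tr k e)}
    ⟨k0, hstar k0 ⟨e0, h0, Rel.refl _ _⟩⟩ (by
      intro k hk e he k' hk'
      apply hstar k'
      refine ⟨(e.2, e.1), hk', ?_⟩
      exact (hk e he).trans (rel_cross P (mem_sides.mp he) (mem_sides'.mp hk')))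
  intro k
  have : k ∈ {k | ∀ e ∈ sides p h x k, Rel (fanT p h x) (tr k0 e0) (tr k e)} := by
    rw [hA]; exact Set.mem_univ k
  exact this

theorem fan_flow (P : Poly p h x) (κ : (I ⊕ K) × (I ⊕ K) × (I ⊕ K) → ℤ)
    (hκ : ∑ t ∈ fanT p h x, κ t = 0) : Bd (fanT p h x) κ := by
  classical
  obtain ⟨k0⟩ := nonempty_K P
  have h3 := card_act P k0
  have h4 : 0 < (actAt p h (x k0)).card := by omega
  obtain ⟨i0, hi0⟩ := Finset.card_pos.mp h4
  obtain ⟨j0, hj0⟩ := (g0 P k0).exists_succ hi0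
  have he0 : (i0, j0) ∈ sides p h x k0 := mem_sides'.mpr hj0
  have hall : ∀ t ∈ fanT p h x, Rel (fanT p h x) t (tr k0 (i0, j0)) := by
    intro t ht
    obtain ⟨k, e, he, rfl⟩ := mem_fanT.mp ht
    exact (rel_all P he0 k e he).symm
  have h5 : Bd (fanT p h x) (fun s => ∑ t ∈ fanT p h x,
      κ t * (dl t s - dl (tr k0 (i0, j0)) s)) :=
    Bd.sum (fanT p h x) (fun t s => κ t * (dl t s - dl (tr k0 (i0, j0)) s))
      (fun t ht => Bd.smul (κ t) (hall t ht))
  refine h5.congr (fun s hs => ?_)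
  simp only [mul_sub, Finset.sum_sub_distrib, ← Finset.sum_mul, hκ, zero_mul, sub_zero]
  simp only [dl, mul_ite, mul_one, mul_zero]
  rw [Finset.sum_ite_eq, if_pos hs]

theorem st_G5 : ST_G5 := by
  intro I K _ _ _ _ p h x P
  exact ⟨fun θ hθ => fan_cl P θ hθ, fun κ hκ => fan_flow P κ hκ⟩

end

end N9.G67
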