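import Pool.Agent.Helper24.N9.Stm

/-! MP_9b91d1_co, block GEO: cones and edges of the polytope (helper67). -/

namespace N9.G67

open Filter Topology N9

/-! ### Algebra -/

theorem ip_zero_right (a : V3) : ip a 0 = 0 := by
  simp only [ip_eq, Pi.zero_apply]; ring

theorem ip_crv (a b c : V3) : ip c (crv a b) = dt a b c := by
  simp only [ip_eq, crv, dt, Matrix.cons_val_zero, Matrix.cons_val_one, Matrix.cons_val]
  ring

theorem ip_crv' (a b c : V3) : ip (crv a b) c = dt a b c := by
  rw [ip_comm, ip_crv]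

theorem ip_crv_left (a b : V3) : ip a (crv a b) = 0 := by
  rw [ip_crv]; simp only [dt]; ring

theorem ip_crv_right (a b : V3) : ip b (crv a b) = 0 := by
  rw [ip_crv]; simp only [dt]; ring

theorem crv_swap (a b : V3) : crv b a = - crv a b := by
  funext i
  fin_cases i <;> simp [crv] <;> ring

theorem dt_self_left (a b : V3) : dt a b a = 0 := by simp only [dt]; ring

theorem dt_self_right (a b : V3) : dt a b b = 0 := by simp only [dt]; ring

theorem dt_add_right (a b c d : V3) : dt a b (c + d) = dt a b c + dt a b d := by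
  simp only [dt, Pi.add_apply]; ring

theorem dt_sub_right (a b c d : V3) : dt a b (c - d) = dt a b c - dt a b d := by
  simp only [dt, Pi.sub_apply]; ring

theorem dt_smul_right (a b c : V3) (r : ℝ) : dt a b (r • c) = r * dt a b c := by
  simp only [dt, Pi.smul_apply, smul_eq_mul]; ring

theorem dt_sum_right {ι : Type*} (a b : V3) (s : Finset ι) (f : ι → V3) :
    dt a b (∑ i ∈ s, f i) = ∑ i ∈ s, dt a b (f i) := by
  simp only [dt, Finset.sum_apply, Finset.mul_sum, Finset.sum_mul, ← Finset.sum_sub_distrib,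
    ← Finset.sum_add_distrib]

theorem ip_sum_left {ι : Type*} (a : V3) (s : Finset ι) (f : ι → V3) :
    ip (∑ i ∈ s, f i) a = ∑ i ∈ s, ip (f i) a := by
  simp only [ip_eq, Finset.sum_apply, Finset.sum_mul, ← Finset.sum_add_distrib]

theorem nsq_eq_zero {a : V3} (h : nsq a = 0) : a = 0 := by
  by_contra h1
  exact (nsq_pos h1).ne' h

theorem nsq_crv (a b : V3) : nsq (crv a b) = nsq a * nsq b - ip a b ^ 2 := by
  simp only [nsq_eq, ip_eq, crv, Matrix.cons_val_zero, Matrix.cons_val_one, Matrix.cons_val]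
  ring

theorem ip_sq_le (a b : V3) : ip a b ^ 2 ≤ nsq a * nsq b := by
  have := nsq_nonneg (crv a b)
  rw [nsq_crv] at this
  linarith

theorem ip_abs_le {a b : V3} (ha : nsq a = 1) : |ip a b| ≤ Real.sqrt (nsq b) := by
  apply Real.le_sqrt_of_sq_le
  rw [sq_abs]
  have := ip_sq_le a b
  rw [ha, one_mul] at this
  exact this

theorem ip_le_sqrt {a b : V3} (ha : nsq a = 1) : ip a b ≤ Real.sqrt (nsq b) :=
  (le_abs_self _).trans (ip_abs_le ha)

/-- three vectors with nonzero determinant: the only orthogonal vector is zero -/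
theorem eq_zero_of_dt {a b c v : V3} (hd : dt a b c ≠ 0) (ha : ip a v = 0) (hb : ip b v = 0)
    (hc : ip c v = 0) : v = 0 := by
  rw [ip_eq] at ha hb hc
  have h0 : dt a b c * v 0 = 0 := by
    simp only [dt]
    linear_combination (b 1 * c 2 - b 2 * c 1) * ha - (a 1 * c 2 - a 2 * c 1) * hb
      + (a 1 * b 2 - a 2 * b 1) * hc
  have h1 : dt a b c * v 1 = 0 := by
    simp only [dt]
    linear_combination -(b 0 * c 2 - b 2 * c 0) * ha + (a 0 * c 2 - a 2 * c 0) * hb
      - (a 0 * b 2 - a 2 * b 0) * hc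
  have h2 : dt a b c * v 2 = 0 := by
    simp only [dt]
    linear_combination (b 0 * c 1 - b 1 * c 0) * ha - (a 0 * c 1 - a 1 * c 0) * hb
      + (a 0 * b 1 - a 1 * b 0) * hc
  funext i
  fin_cases i
  · exact (mul_eq_zero.mp h0).resolve_left hd
  · exact (mul_eq_zero.mp h1).resolve_left hd
  · exact (mul_eq_zero.mp h2).resolve_left hd

theorem eq_of_ip_one {a b : V3} (ha : nsq a = 1) (hb : nsq b = 1) (h1 : ip a b = 1) : a = b := by
  have h2 : nsq (a - b) = 0 := by
    have : nsq (a - b) = nsq a + nsq b - 2 * ip a b := by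
      simp only [nsq_eq, ip_eq, Pi.sub_apply]; ring
    rw [this, ha, hb, h1]; ring
  exact sub_eq_zero.mp (nsq_eq_zero h2)

theorem eq_neg_of_ip {a b : V3} (ha : nsq a = 1) (hb : nsq b = 1) (h1 : ip a b = -1) :
    a = -b := by
  have h2 : nsq (a + b) = 0 := by
    have : nsq (a + b) = nsq a + nsq b + 2 * ip a b := by
      simp only [nsq_eq, ip_eq, Pi.add_apply]; ring
    rw [this, ha, hb, h1]; ring
  exact eq_neg_of_add_eq_zero_left (nsq_eq_zero h2)

theorem crv_ne_of_dt {a b c : V3} (hd : dt a b c ≠ 0) : nsq (crv a b) ≠ 0 := by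
  intro h0
  rw [← ip_crv, nsq_eq_zero h0, ip_zero_right] at hd
  exact hd rfl

/-- a vector in the plane of `a`, `b` is a combination of them -/
theorem comb_of_dt {a b c : V3} (hn : nsq (crv a b) ≠ 0) (h0 : dt a b c = 0) :
    ∃ α β : ℝ, c = α • a + β • b := by
  have hD : nsq a * nsq b - ip a b ^ 2 ≠ 0 := by rw [← nsq_crv]; exact hn
  set D := nsq a * nsq b - ip a b ^ 2 with hDd
  refine ⟨(ip a c * nsq b - ip a b * ip b c) / D, (ip b c * nsq a - ip a b * ip a c) / D, ?_⟩
  set α := (ip a c * nsq b - ip a b * ip b c) / D with hα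
  set β := (ip b c * nsq a - ip a b * ip a c) / D with hβ
  have hα' : α * D = ip a c * nsq b - ip a b * ip b c := by rw [hα]; field_simp
  have hβ' : β * D = ip b c * nsq a - ip a b * ip a c := by rw [hβ]; field_simp
  have hw : c - (α • a + β • b) = 0 := by
    have hdt : dt a b (crv a b) ≠ 0 := by
      rw [← ip_crv, ip_self]; exact hn
    apply eq_zero_of_dt hdt
    · rw [ip_sub_right, ip_add_right, ip_smul_right, ip_smul_right, ip_self]
      apply mul_right_cancel₀ hD
      have : (ip a c - (α * nsq a + β * ip a b)) * D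
          = ip a c * D - (α * D) * nsq a - (β * D) * ip a b := by ring
      rw [this, hα', hβ', hDd]; ring
    · rw [ip_sub_right, ip_add_right, ip_smul_right, ip_smul_right, ip_self, ip_comm b a]
      apply mul_right_cancel₀ hD
      have : (ip b c - (α * ip a b + β * nsq b)) * D
          = ip b c * D - (α * D) * ip a b - (β * D) * nsq b := by ring
      rw [this, hα', hβ', hDd]; ring
    · rw [ip_sub_right, ip_add_right, ip_smul_right, ip_smul_right, ip_comm (crv a b) a,
        ip_comm (crv a b) b, ip_crv_left, ip_crv_right, ip_crv', h0]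
      ring
  exact sub_eq_zero.mp hw

theorem exists_perp2 (a b : V3) : ∃ v : V3, v ≠ 0 ∧ ip a v = 0 ∧ ip b v = 0 := by
  let f : V3 →ₗ[ℝ] (Fin 2 → ℝ) :=
    { toFun := fun v => ![ip a v, ip b v]
      map_add' := by intro v w; funext i; fin_cases i <;> simp [ip_add_right]
      map_smul' := by intro r v; funext i; fin_cases i <;> simp [ip_smul_right] }
  have hf : LinearMap.ker f ≠ ⊥ := LinearMap.ker_ne_bot_of_finrank_lt (by simp)
  obtain ⟨v, hv, hv0⟩ := Submodule.exists_mem_ne_zero_of_ne_bot hf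
  have h1 : f v = 0 := hv
  refine ⟨v, hv0, ?_, ?_⟩
  · have := congrFun h1 0; simpa [f] using this
  · have := congrFun h1 1; simpa [f] using this

/-! ### Polygonal cones -/

section
variable {I : Type} [DecidableEq I] {p : I → V3} {S : Finset I}

theorem side_third (hS : ConvPos p S) {i j : I} (hs : Side p S i j) :
    ∃ l ∈ S, l ≠ i ∧ l ≠ j := by
  by_contra hcon
  push Not at hcon
  have : S ⊆ {i, j} := by
    intro l hl
    by_cases h1 : l = i
    · simp [h1]
    · simp [hcon l hl h1]
  have h2 := Finset.card_le_card this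
  have h3 := hS.card
  have h4 : ({i, j} : Finset I).card ≤ 2 := Finset.card_le_two
  omega

omit [DecidableEq I] in
theorem side_dt_nonneg {i j l : I} (hs : Side p S i j) (hl : l ∈ S) :
    0 ≤ dt (p i) (p j) (p l) := by
  by_cases h1 : l = i
  · rw [h1, dt_self_left]
  · by_cases h2 : l = j
    · rw [h2, dt_self_right]
    · exact (hs.2.2.2 l hl h1 h2).le

/-- the sum of all vectors of the polygon is interior -/
theorem dt_sum_pos (hS : ConvPos p S) {i j : I} (hs : Side p S i j) :
    0 < dt (p i) (p j) (∑ s ∈ S, p s) := by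
  rw [dt_sum_right]
  obtain ⟨l, hl, h1, h2⟩ := side_third hS hs
  exact Finset.sum_pos' (fun s hs' => side_dt_nonneg hs hs') ⟨l, hl, hs.2.2.2 l hl h1 h2⟩

/-- N2: the cone given by the sides is the union of the triangles with apex `c0`. -/
theorem cone_tri (hS : ConvPos p S) {v c0 : V3}
    (hv : ∀ i j, Side p S i j → 0 ≤ dt (p i) (p j) v)
    (hc0 : ∀ i j, Side p S i j → 0 < dt (p i) (p j) c0) :
    ∃ i j, Side p S i j ∧ ∃ ga al be : ℝ, 0 ≤ ga ∧ 0 ≤ al ∧ 0 ≤ be ∧
      v = ga • c0 + al • p i + be • p j ∧ ga * dt (p i) (p j) c0 = dt (p i) (p j) v ∧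
      ∀ i' j', Side p S i' j' → ga * dt (p i') (p j') c0 ≤ dt (p i') (p j') v := by
  classical
  let E : Finset (I × I) := (S ×ˢ S).filter (fun e => Side p S e.1 e.2)
  have hmem : ∀ i j, Side p S i j → (i, j) ∈ E := by
    intro i j hs
    simp only [E, Finset.mem_filter, Finset.mem_product]
    exact ⟨⟨hs.1, hs.2.1⟩, hs⟩
  have hne : E.Nonempty := by
    have hc : 0 < S.card := by have := hS.card; omega
    obtain ⟨i, hi⟩ := Finset.card_pos.mp hc
    obtain ⟨j, hj⟩ := hS.exists_succ hi
    exact ⟨(i, j), hmem i j hj⟩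
  obtain ⟨e, heE, hmin⟩ := Finset.exists_min_image E
    (fun e => dt (p e.1) (p e.2) v / dt (p e.1) (p e.2) c0) hne
  obtain ⟨i, j⟩ := e
  have hs : Side p S i j := (Finset.mem_filter.mp heE).2
  have hpos := hc0 i j hs
  set ga := dt (p i) (p j) v / dt (p i) (p j) c0 with hga
  have hga0 : 0 ≤ ga := div_nonneg (hv i j hs) hpos.le
  have hgae : ga * dt (p i) (p j) c0 = dt (p i) (p j) v := by
    rw [hga]; field_simp
  have hle : ∀ i' j', Side p S i' j' → ga * dt (p i') (p j') c0 ≤ dt (p i') (p j') v := by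
    intro i' j' hs'
    have h1 : ga ≤ dt (p i') (p j') v / dt (p i') (p j') c0 := hmin (i', j') (hmem i' j' hs')
    rwa [le_div_iff₀ (hc0 i' j' hs')] at h1
  have hw0 : dt (p i) (p j) (v - ga • c0) = 0 := by
    rw [dt_sub_right, dt_smul_right, hgae]; ring
  have hw : ∀ i' j', Side p S i' j' → 0 ≤ dt (p i') (p j') (v - ga • c0) := by
    intro i' j' hs'
    rw [dt_sub_right, dt_smul_right]
    linarith [hle i' j' hs']
  obtain ⟨al, be, hab⟩ := comb_of_dt (crv_ne_of_dt hpos.ne') hw0
  obtain ⟨l, hl⟩ := hS.exists_succ hs.2.1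
  obtain ⟨m, hm⟩ := hS.exists_pred hs.1
  have hil : i ≠ l := Side.ne_of_card hS hs hl
  have hmj : m ≠ j := Side.ne_of_card hS hm hs
  have hal : 0 ≤ al := by
    have h1 := hw j l hl
    rw [hab, dt_add_right, dt_smul_right, dt_smul_right, dt_self_left, mul_zero,
      add_zero] at h1
    have h2 := hl.2.2.2 i hs.1 hs.2.2.1 hil
    by_contra h3
    push Not at h3
    nlinarith
  have hbe : 0 ≤ be := by
    have h1 := hw m i hm
    rw [hab, dt_add_right, dt_smul_right, dt_smul_right, dt_self_right, mul_zero,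
      zero_add] at h1
    have h2 := hm.2.2.2 j hs.2.1 hmj.symm hs.2.2.1.symm
    by_contra h3
    push Not at h3
    nlinarith
  refine ⟨i, j, hs, ga, al, be, hga0, hal, hbe, ?_, hgae, hle⟩
  have : v = ga • c0 + (v - ga • c0) := by abel
  rw [this, hab, add_assoc]

end

/-! ### Polytopes -/

section
variable {I K : Type} [Fintype I] {p : I → V3} {h : I → ℝ} {x : K → V3}

theorem mem_actAt {p : I → V3} {h : I → ℝ} {y : V3} {i : I} :
    i ∈ actAt p h y ↔ ip (p i) y = h i := by
  simp [actAt]

end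

section
variable {I K : Type} [Fintype I] [DecidableEq I] [Fintype K] [DecidableEq K]
  {p : I → V3} {h : I → ℝ} {x : K → V3}

theorem mem_sides {k : K} {e : I × I} :
    e ∈ sides p h x k ↔ Side p (actAt p h (x k)) e.1 e.2 := by
  simp [sides]

theorem mem_sides' {k : K} {i j : I} :
    (i, j) ∈ sides p h x k ↔ Side p (actAt p h (x k)) i j := by
  simp [sides]

/-- at a point with three active facets the active normals are in convex position -/
theorem convPos_at (P : Poly p h x) {y : V3} (hc : 3 ≤ (actAt p h y).card) :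
    ConvPos p (actAt p h y) := by
  refine ⟨⟨y, ?_⟩, ?_, hc⟩
  · intro i hi
    rw [ip_comm, mem_actAt.mp hi]
    exact P.hpos i
  · intro i hi
    obtain ⟨z, hz, hz'⟩ := P.facet i
    refine ⟨z - y, ?_, ?_⟩
    · rw [ip_sub_right, hz, mem_actAt.mp hi]; ring
    · intro j hj hji
      rw [ip_sub_right, mem_actAt.mp hj]
      linarith [hz' j hji]

theorem card_act (P : Poly p h x) (k : K) : 3 ≤ (actAt p h (x k)).card := by
  obtain ⟨i, hi, j, hj, l, hl, hd⟩ := P.span k
  have hij : i ≠ j := by
    rintro rfl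
    apply hd; simp only [dt]; ring
  have hil : i ≠ l := by
    rintro rfl
    apply hd; rw [dt_self_left]
  have hjl : j ≠ l := by
    rintro rfl
    apply hd; rw [dt_self_right]
  have h1 : 2 < (actAt p h (x k)).card :=
    Finset.two_lt_card.mpr ⟨i, hi, j, hj, l, hl, hij, hil, hjl⟩
  omega

theorem g0 (P : Poly p h x) (k : K) : ConvPos p (actAt p h (x k)) :=
  convPos_at P (card_act P k)

theorem vert_of_card (P : Poly p h x) {y : V3} (hy : ∀ i, ip (p i) y ≤ h i)
    (hc : 3 ≤ (actAt p h y).card) : ∃ k, x k = y := by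
  have h1 : 2 < (actAt p h y).card := by omega
  obtain ⟨i, hi, j, hj, l, hl, hij, hil, hjl⟩ := Finset.two_lt_card.mp h1
  exact P.all y hy ⟨i, hi, j, hj, l, hl,
    (convPos_at P hc).dt_ne hi hj hl hij.symm hil.symm hjl⟩

theorem eq_of_act_subset (P : Poly p h x) {k : K} {y : V3}
    (hy : ∀ i ∈ actAt p h (x k), ip (p i) y = h i) : y = x k := by
  obtain ⟨i, hi, j, hj, l, hl, hd⟩ := P.span k
  have : y - x k = 0 := by
    apply eq_zero_of_dt hd
    · rw [ip_sub_right, hy i hi, mem_actAt.mp hi]; ring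
    · rw [ip_sub_right, hy j hj, mem_actAt.mp hj]; ring
    · rw [ip_sub_right, hy l hl, mem_actAt.mp hl]; ring
  exact sub_eq_zero.mp this

/-- Moving from a point of the polytope in a direction `v ≠ 0` until a new facet is reached. -/
theorem hit (P : Poly p h x) {y v : V3} (hy : ∀ i, ip (p i) y ≤ h i) (hv : v ≠ 0)
    (hact : ∀ i, ip (p i) y = h i → ip (p i) v ≤ 0) :
    ∃ t : ℝ, 0 < t ∧ (∀ i, ip (p i) (y + t • v) ≤ h i) ∧
      ∃ i, 0 < ip (p i) v ∧ ip (p i) (y + t • v) = h i := by
  classical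
  obtain ⟨c, hc, hb⟩ := P.bdd
  obtain ⟨i1, hi1⟩ := hb v
  have hnv : 0 < nsq v := nsq_pos hv
  have hi1' : 0 < ip (p i1) v := lt_of_lt_of_le (mul_pos hc (Real.sqrt_pos.mpr hnv)) hi1
  let S : Finset I := Finset.univ.filter (fun i => 0 < ip (p i) v)
  have hS : S.Nonempty := ⟨i1, by simp [S, hi1']⟩
  obtain ⟨i0, hi0, hmin⟩ := Finset.exists_min_image S
    (fun i => (h i - ip (p i) y) / ip (p i) v) hS
  have hi0v : 0 < ip (p i0) v := by simpa [S] using hi0
  have hi0y : ip (p i0) y < h i0 := by
    rcases (hy i0).lt_or_eq with h1 | h1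
    · exact h1
    · exact absurd (hact i0 h1) (not_le.mpr hi0v)
  set t : ℝ := (h i0 - ip (p i0) y) / ip (p i0) v with ht
  have htpos : 0 < t := div_pos (sub_pos.mpr hi0y) hi0v
  refine ⟨t, htpos, ?_, i0, hi0v, ?_⟩
  · intro i
    rw [ip_add_right, ip_smul_right]
    by_cases hiv : 0 < ip (p i) v
    · have h2 := hmin i (by simp [S, hiv])
      have h3 : t ≤ (h i - ip (p i) y) / ip (p i) v := h2
      rw [le_div_iff₀ hiv] at h3
      linarith
    · have h4 : ip (p i) v ≤ 0 := not_lt.mp hiv
      have := hy i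
      nlinarith
  · rw [ip_add_right, ip_smul_right]
    have h6 : t * ip (p i0) v = h i0 - ip (p i0) y := by
      rw [ht]; field_simp
    linarith

/-- Every point of the polytope lies in a face which has a vertex. -/
theorem exists_vert (P : Poly p h x) {y : V3} (hy : ∀ i, ip (p i) y ≤ h i) :
    ∃ k, ∀ i ∈ actAt p h y, i ∈ actAt p h (x k) := by
  classical
  have key : ∀ n : ℕ, ∀ y : V3, (∀ i, ip (p i) y ≤ h i) →
      Fintype.card I - (actAt p h y).card = n →
      ∃ k, ∀ i ∈ actAt p h y, i ∈ actAt p h (x k) := by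
    intro n
    induction n using Nat.strong_induction_on with
    | _ n ih =>
      intro y hy hn
      by_cases hc : 3 ≤ (actAt p h y).card
      · obtain ⟨k, hk⟩ := vert_of_card P hy hc
        exact ⟨k, fun i hi => hk ▸ hi⟩
      · have hex : ∃ v : V3, v ≠ 0 ∧ ∀ i ∈ actAt p h y, ip (p i) v = 0 := by
          have hc2 : (actAt p h y).card ≤ 2 := by omega
          rcases (actAt p h y).eq_empty_or_nonempty with h0 | ⟨a, ha⟩
          · obtain ⟨v, hv, -, -⟩ := exists_perp2 0 0
            exact ⟨v, hv, by rw [h0]; simp⟩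
          · have h1 : ((actAt p h y).erase a).card ≤ 1 := by
              rw [Finset.card_erase_of_mem ha]; omega
            rw [Finset.card_le_one] at h1
            rcases ((actAt p h y).erase a).eq_empty_or_nonempty with h2 | ⟨b, hb⟩
            · obtain ⟨v, hv, hv1, -⟩ := exists_perp2 (p a) 0
              refine ⟨v, hv, fun i hi => ?_⟩
              by_cases hia : i = a
              · rw [hia]; exact hv1
              · have : i ∈ (actAt p h y).erase a := Finset.mem_erase.mpr ⟨hia, hi⟩
                rw [h2] at this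
                exact absurd this (Finset.notMem_empty i)
            · obtain ⟨v, hv, hv1, hv2⟩ := exists_perp2 (p a) (p b)
              refine ⟨v, hv, fun i hi => ?_⟩
              by_cases hia : i = a
              · rw [hia]; exact hv1
              · have : i = b := h1 i (Finset.mem_erase.mpr ⟨hia, hi⟩) b hb
                rw [this]; exact hv2
        obtain ⟨v, hv0, hv⟩ := hex
        obtain ⟨t, ht, hin, i0, hi0, hac⟩ := hit P hy hv0
          (fun i hi => (hv i (mem_actAt.mpr hi)).le)
        have hmono : actAt p h y ⊆ actAt p h (y + t • v) := by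
          intro i hi
          rw [mem_actAt, ip_add_right, ip_smul_right, hv i hi, mul_zero, add_zero]
          exact mem_actAt.mp hi
        have hi0y : i0 ∉ actAt p h y := by
          intro hi
          rw [hv i0 hi] at hi0
          exact lt_irrefl _ hi0
        have hlt : (actAt p h y).card < (actAt p h (y + t • v)).card := by
          apply Finset.card_lt_card
          rw [Finset.ssubset_iff_of_subset hmono]
          exact ⟨i0, mem_actAt.mpr hac, hi0y⟩
        have hle : (actAt p h (y + t • v)).card ≤ Fintype.card I := Finset.card_le_univ _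
        obtain ⟨k, hk⟩ := ih _ (by omega) _ hin rfl
        exact ⟨k, fun i hi => hk i (hmono hi)⟩
  exact key _ y hy rfl

theorem mem_of_facet {i : I} {z : V3} (hz : ip (p i) z = h i)
    (hz' : ∀ j, j ≠ i → ip (p j) z < h j) : ∀ j, ip (p j) z ≤ h j := by
  intro j
  by_cases hj : j = i
  · rw [hj]; exact hz.le
  · exact (hz' j hj).le

/-- Every facet has a vertex. -/
theorem exists_vert_facet (P : Poly p h x) (i : I) : ∃ k, i ∈ actAt p h (x k) := by
  obtain ⟨y, hy, hy'⟩ := P.facet i
  obtain ⟨k, hk⟩ := exists_vert P (mem_of_facet hy hy')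
  exact ⟨k, hk i (mem_actAt.mpr hy)⟩

omit [DecidableEq I] [Fintype K] [DecidableEq K] in
theorem ne_of_ne (P : Poly p h x) {i j : I} (hij : i ≠ j) : p i ≠ p j := by
  intro he
  obtain ⟨y, hy, hy'⟩ := P.facet i
  obtain ⟨z, hz, hz'⟩ := P.facet j
  have h1 := hy' j hij.symm
  have h2 := hz' i hij
  rw [← he, hy] at h1
  rw [he, hz] at h2
  linarith

omit [DecidableEq I] [Fintype K] [DecidableEq K] in
/-- Two facets which meet are transversal. -/
theorem nsq_crv_pos (P : Poly p h x) {i j : I} (hij : i ≠ j) {y : V3}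
    (hi : ip (p i) y = h i) (hj : ip (p j) y = h j) : 0 < nsq (crv (p i) (p j)) := by
  rw [nsq_crv, P.unit i, P.unit j]
  have hle : ip (p i) (p j) ^ 2 ≤ 1 := by
    have := ip_sq_le (p i) (p j)
    rwa [P.unit i, P.unit j, one_mul] at this
  rcases hle.lt_or_eq with h1 | h1
  · linarith
  · exfalso
    rcases sq_eq_one_iff.mp h1 with h2 | h2
    · exact ne_of_ne P hij (eq_of_ip_one (P.unit i) (P.unit j) h2)
    · have h3 := eq_neg_of_ip (P.unit i) (P.unit j) h2
      have h4 : ip (p i) y = - ip (p j) y := by rw [h3, ip_neg_left]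
      rw [hi, hj] at h4
      linarith [P.hpos i, P.hpos j]

/-- A small step keeps the inactive facets inactive. -/
theorem small_step {I : Type} [Fintype I] (p : I → V3) (h : I → ℝ) (y v : V3) :
    ∀ᶠ s in 𝓝[>] (0 : ℝ), ∀ i, ip (p i) y < h i → ip (p i) (y + s • v) < h i := by
  rw [Filter.eventually_all]
  intro i
  by_cases hi : ip (p i) y < h i
  · have hcont : Tendsto (fun s : ℝ => ip (p i) (y + s • v)) (𝓝[>] 0) (𝓝 (ip (p i) y)) := by
      have h1 : Tendsto (fun s : ℝ => ip (p i) y + s * ip (p i) v) (𝓝 0)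
          (𝓝 (ip (p i) y + 0 * ip (p i) v)) :=
        tendsto_const_nhds.add (tendsto_id.mul tendsto_const_nhds)
      rw [zero_mul, add_zero] at h1
      refine (h1.mono_left nhdsWithin_le_nhds).congr (fun s => ?_)
      rw [ip_add_right, ip_smul_right]
    filter_upwards [hcont.eventually_lt_const hi] with s hs _
    exact hs
  · exact Filter.Eventually.of_forall (fun s h1 => absurd h1 hi)

/-- From an interior point of an edge one reaches a vertex. -/
theorem edge_end (P : Poly p h x) {i j : I} (hij : i ≠ j) {y : V3}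
    (hi : ip (p i) y = h i) (hj : ip (p j) y = h j)
    (hl : ∀ l, l ≠ i → l ≠ j → ip (p l) y < h l) :
    ∃ k, ∃ t : ℝ, 0 < t ∧ x k = y + t • crv (p i) (p j) ∧
      Side p (actAt p h (x k)) i j := by
  set v := crv (p i) (p j) with hv
  have hpos := nsq_crv_pos P hij hi hj
  rw [← hv] at hpos
  have hv0 : v ≠ 0 := by
    intro h0
    rw [h0, ← ip_self, ip_zero_right] at hpos
    exact lt_irrefl _ hpos
  have hin : ∀ l, ip (p l) y ≤ h l := by
    intro l
    by_cases h1 : l = i
    · rw [h1]; exact le_of_eq hi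
    · by_cases h2 : l = j
      · rw [h2]; exact le_of_eq hj
      · exact (hl l h1 h2).le
  have hiv : ip (p i) v = 0 := ip_crv_left _ _
  have hjv : ip (p j) v = 0 := ip_crv_right _ _
  have hact : ∀ l, ip (p l) y = h l → ip (p l) v ≤ 0 := by
    intro l hal
    by_cases h1 : l = i
    · rw [h1, hiv]
    · by_cases h2 : l = j
      · rw [h2, hjv]
      · exact absurd hal (ne_of_lt (hl l h1 h2))
  obtain ⟨t, ht, hin', l0, hl0, hal0⟩ := hit P hin hv0 hact
  have hai : ip (p i) (y + t • v) = h i := by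
    rw [ip_add_right, ip_smul_right, hiv, mul_zero, add_zero]; exact hi
  have haj : ip (p j) (y + t • v) = h j := by
    rw [ip_add_right, ip_smul_right, hjv, mul_zero, add_zero]; exact hj
  have hdt : dt (p i) (p j) (p l0) ≠ 0 := by
    rw [← ip_crv, ← hv]; exact hl0.ne'
  obtain ⟨k, hk⟩ := P.all _ hin' ⟨i, mem_actAt.mpr hai, j, mem_actAt.mpr haj, l0,
    mem_actAt.mpr hal0, hdt⟩
  refine ⟨k, t, ht, hk, ?_⟩
  rw [hk]
  refine ⟨mem_actAt.mpr hai, mem_actAt.mpr haj, hij, ?_⟩
  intro l hal h1 h2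
  have hal' := mem_actAt.mp hal
  rw [ip_add_right, ip_smul_right] at hal'
  have h3 := hl l h1 h2
  rw [← ip_crv, ← hv]
  by_contra h4
  have h5 : ip (p l) v ≤ 0 := not_lt.mp h4
  nlinarith

omit [DecidableEq I] in
/-- Interior points of the edge near its end `x k`. -/
theorem side_pt (P : Poly p h x) {k : K} {i j : I} (hs : Side p (actAt p h (x k)) i j) :
    ∀ᶠ s in 𝓝[>] (0 : ℝ), ip (p i) (x k - s • crv (p i) (p j)) = h i ∧
      ip (p j) (x k - s • crv (p i) (p j)) = h j ∧
      ∀ l, l ≠ i → l ≠ j → ip (p l) (x k - s • crv (p i) (p j)) < h l := by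
  obtain ⟨hi, hj, hij, hl⟩ := hs
  filter_upwards [small_step p h (x k) (-crv (p i) (p j)), self_mem_nhdsWithin] with s hs hs0
  have hs0' : 0 < s := hs0
  refine ⟨?_, ?_, ?_⟩
  · rw [ip_sub_right, ip_smul_right, ip_crv_left, mul_zero, sub_zero, mem_actAt.mp hi]
  · rw [ip_sub_right, ip_smul_right, ip_crv_right, mul_zero, sub_zero, mem_actAt.mp hj]
  · intro l h1 h2
    by_cases hal : l ∈ actAt p h (x k)
    · have h3 := hl l hal h1 h2
      rw [ip_sub_right, ip_smul_right, ip_crv, mem_actAt.mp hal]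
      nlinarith
    · have h4 : ip (p l) (x k) < h l :=
        lt_of_le_of_ne (P.mem k l) (fun h5 => hal (mem_actAt.mpr h5))
      have h5 := hs l h4
      rw [smul_neg, ← sub_eq_add_neg] at h5
      exact h5

/-- EP: a point with active set exactly `{i, j}`. -/
theorem edge_point (P : Poly p h x) {k : K} {i j : I} (hs : Side p (actAt p h (x k)) i j) :
    ∃ y, ip (p i) y = h i ∧ ip (p j) y = h j ∧ ∀ l, l ≠ i → l ≠ j → ip (p l) y < h l := by
  obtain ⟨s, hs⟩ := (side_pt P hs).exists
  exact ⟨_, hs⟩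

/-- The other end of an edge. -/
theorem side_other (P : Poly p h x) {k : K} {i j : I} (hs : Side p (actAt p h (x k)) i j) :
    ∃ k', ∃ t : ℝ, 0 < t ∧ x k' = x k - t • crv (p i) (p j) ∧
      Side p (actAt p h (x k')) j i := by
  obtain ⟨s, ⟨hi, hj, hl⟩, hs0⟩ := ((side_pt P hs).and self_mem_nhdsWithin).exists
  have hs0' : 0 < s := hs0
  obtain ⟨k', t, ht, hx, hside⟩ := edge_end P hs.2.2.1.symm hj hi (fun l h1 h2 => hl l h2 h1)
  refine ⟨k', s + t, by linarith, ?_, hside⟩
  rw [hx, crv_swap (p i) (p j), smul_neg, add_smul]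
  abel

/-- An oriented edge has only one end. -/
theorem side_unique (P : Poly p h x) {k k' : K} {i j : I}
    (hs : Side p (actAt p h (x k)) i j) (hs' : Side p (actAt p h (x k')) i j) : k = k' := by
  have hij := hs.2.2.1
  have hi := mem_actAt.mp hs.1
  have hj := mem_actAt.mp hs.2.1
  have hi' := mem_actAt.mp hs'.1
  have hj' := mem_actAt.mp hs'.2.1
  have hpos := nsq_crv_pos P hij hi hj
  set v := crv (p i) (p j) with hv
  set w := x k' - x k with hw
  have hwi : ip (p i) w = 0 := by rw [hw, ip_sub_right, hi, hi']; ring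
  have hwj : ip (p j) w = 0 := by rw [hw, ip_sub_right, hj, hj']; ring
  set τ := ip v w / nsq v with hτ
  have hpar : w - τ • v = 0 := by
    have hdt : dt (p i) (p j) v ≠ 0 := by
      rw [← ip_crv, ← hv, ip_self]; exact hpos.ne'
    apply eq_zero_of_dt hdt
    · rw [ip_sub_right, ip_smul_right, hwi, hv, ip_crv_left]; ring
    · rw [ip_sub_right, ip_smul_right, hwj, hv, ip_crv_right]; ring
    · rw [ip_sub_right, ip_smul_right, ip_self, hτ]; field_simp; ring
  have hw' : w = τ • v := sub_eq_zero.mp hpar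
  obtain ⟨l, hl, hli, hlj⟩ := side_third (g0 P k) hs
  obtain ⟨m, hm, hmi, hmj⟩ := side_third (g0 P k') hs'
  have h1 := hs.2.2.2 l hl hli hlj
  have h2 := hs'.2.2.2 m hm hmi hmj
  rw [← ip_crv, ← hv] at h1 h2
  have hl' := mem_actAt.mp hl
  have hm' := mem_actAt.mp hm
  have h3 := P.mem k' l
  have h4 := P.mem k m
  have e1 : x k' = x k + τ • v := by rw [← hw', hw]; abel
  have h5 : τ ≤ 0 := by
    rw [e1, ip_add_right, ip_smul_right, hl'] at h3
    by_contra h6
    push Not at h6
    nlinarith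
  have h6 : 0 ≤ τ := by
    rw [e1, ip_add_right, ip_smul_right] at hm'
    by_contra h7
    push Not at h7
    nlinarith
  have h7 : τ = 0 := le_antisymm h5 h6
  apply P.inj
  rw [e1, h7, zero_smul, add_zero]

theorem side_asymm (P : Poly p h x) {k : K} {i j : I}
    (hs : Side p (actAt p h (x k)) i j) : ¬ Side p (actAt p h (x k)) j i := by
  intro hs'
  obtain ⟨l, hl, hli, hlj⟩ := side_third (g0 P k) hs
  have h1 := hs.2.2.2 l hl hli hlj
  have h2 := hs'.2.2.2 l hl hlj hli
  rw [dt_swap'] at h2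
  linarith

/-- N1: every vector lies in the cone of some vertex. -/
theorem exists_cone [Nonempty K] (P : Poly p h x) (v : V3) :
    ∃ k, ∀ i j, Side p (actAt p h (x k)) i j → 0 ≤ dt (p i) (p j) v := by
  obtain ⟨k, -, hk⟩ := Finset.exists_max_image Finset.univ (fun k => ip v (x k))
    Finset.univ_nonempty
  refine ⟨k, fun i j hs => ?_⟩
  obtain ⟨k', t, ht, hx, -⟩ := side_other P hs
  have h1 := hk k' (Finset.mem_univ _)
  rw [hx, ip_sub_right, ip_smul_right, ip_crv] at h1
  by_contra h2
  push Not at h2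
  nlinarith

/-- N3: a vector of the cone of `x k` is maximal at `x k`. -/
theorem cone_le (P : Poly p h x) {k : K} {v y : V3} (hy : ∀ i, ip (p i) y ≤ h i)
    (hv : ∀ i j, Side p (actAt p h (x k)) i j → 0 ≤ dt (p i) (p j) v) :
    ip v y ≤ ip v (x k) := by
  obtain ⟨i, j, hs, ga, al, be, hga, hal, hbe, hv', -, -⟩ :=
    cone_tri (g0 P k) hv (fun i j hs => dt_sum_pos (g0 P k) hs)
  rw [hv', ip_add_left, ip_add_left, ip_smul_left, ip_smul_left, ip_smul_left, ip_sum_left,
    ip_add_left, ip_add_left, ip_smul_left, ip_smul_left, ip_smul_left, ip_sum_left,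
    mem_actAt.mp hs.1, mem_actAt.mp hs.2.1]
  have h1 : ∑ s ∈ actAt p h (x k), ip (p s) y ≤ ∑ s ∈ actAt p h (x k), ip (p s) (x k) := by
    apply Finset.sum_le_sum
    intro s hs
    rw [mem_actAt.mp hs]
    exact hy s
  have h2 := mul_le_mul_of_nonneg_left h1 hga
  have h3 := mul_le_mul_of_nonneg_left (hy i) hal
  have h4 := mul_le_mul_of_nonneg_left (hy j) hbe
  linarith

/-- N3, strict version. -/
theorem cone_lt (P : Poly p h x) {k : K} {v y : V3} (hy : ∀ i, ip (p i) y ≤ h i)
    (hv : ∀ i j, Side p (actAt p h (x k)) i j → 0 < dt (p i) (p j) v) (hne : y ≠ x k) :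
    ip v y < ip v (x k) := by
  obtain ⟨i, j, hs, ga, al, be, hga, hal, hbe, hv', hga', -⟩ :=
    cone_tri (g0 P k) (fun i j hs => (hv i j hs).le) (fun i j hs => dt_sum_pos (g0 P k) hs)
  have hgap : 0 < ga := by
    rcases hga.lt_or_eq with h1 | h1
    · exact h1
    · rw [← h1, zero_mul] at hga'
      exact absurd hga' (ne_of_lt (hv i j hs))
  rw [hv', ip_add_left, ip_add_left, ip_smul_left, ip_smul_left, ip_smul_left, ip_sum_left,
    ip_add_left, ip_add_left, ip_smul_left, ip_smul_left, ip_smul_left, ip_sum_left,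
    mem_actAt.mp hs.1, mem_actAt.mp hs.2.1]
  have h0 : ∃ s ∈ actAt p h (x k), ip (p s) y < ip (p s) (x k) := by
    by_contra hcon
    push Not at hcon
    apply hne
    apply eq_of_act_subset P
    intro s hs
    have := hcon s hs
    rw [mem_actAt.mp hs] at this
    exact le_antisymm (hy s) this
  have h1 : ∑ s ∈ actAt p h (x k), ip (p s) y < ∑ s ∈ actAt p h (x k), ip (p s) (x k) := by
    apply Finset.sum_lt_sum
    · intro s hs
      rw [mem_actAt.mp hs]
      exact hy s
    · exact h0
  have h2 := mul_lt_mul_of_pos_left h1 hgap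
  have h3 := mul_le_mul_of_nonneg_left (hy i) hal
  have h4 := mul_le_mul_of_nonneg_left (hy j) hbe
  linarith

theorem zero_mem (P : Poly p h x) : ∀ i, ip (p i) 0 ≤ h i := by
  intro i
  rw [ip_zero_right]
  exact (P.hpos i).le

theorem nonempty_K (P : Poly p h x) : Nonempty K := by
  obtain ⟨k, -⟩ := exists_vert P (zero_mem P)
  exact ⟨k⟩

end

end N9.G67
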