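import Pool.Agent.Helper24.N9.Deg2
import Pool.Agent.Helper67.N9.Deg1A

/-! MP_9b91d1_co, section 6, row POTF (helper67). -/

open scoped RealInnerProductSpace Topology

namespace Pool.Agent.Helper30.N9

open Cx

namespace D67

theorem conn_of_conn3 {V : Type} [Fintype V] [DecidableEq V] {M : PlaneGraph V}
    (h3 : M.Conn3) : M.G.Connected := by
  have h := h3.2 ∅ (by simp)
  have e : {v : V | v ∉ (∅ : Finset V)} = Set.univ := by
    ext v; simp
  rw [e] at h
  exact (SimpleGraph.induceUnivIso M.G).connected_iff.mp h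

theorem crs_par {u w a : E3} {c : ℝ} (hu : ‖u‖ = 1) (h : crs u w = c • crs u a) :
    ∃ μ : ℝ, w = c • a + μ • u := by
  have h1 : crs u (w - c • a) = 0 := by
    have e1 : crs u (w - c • a) = crs u w - c • crs u a := by
      ext i; fin_cases i <;> simp [crs] <;> ring
    rw [e1, h, sub_self]
  have hu0 : u ≠ 0 := by
    rintro rfl; simp at hu
  refine ⟨⟪u, w - c • a⟫ / ⟪u, u⟫, ?_⟩
  have h2 : w - c • a = (⟪u, w - c • a⟫ / ⟪u, u⟫) • u := by
    have hn : ⟪u, u⟫ = 1 := by rw [real_inner_self_eq_norm_sq, hu]; norm_num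
    rw [hn, div_one]
    -- component formula: crs u (crs u x) = <u,x> u - x
    have h3 : ∀ x : E3, crs u (crs u x) = ⟪u, x⟫ • u - ⟪u, u⟫ • x := by
      intro x
      simp only [inner_def]
      ext i; fin_cases i <;> simp [crs] <;> ring
    have h4 := h3 (w - c • a)
    rw [h1, hn, one_smul] at h4
    have h5 : crs u (0 : E3) = 0 := by
      ext i; fin_cases i <;> simp [crs]
    rw [h5] at h4
    exact (sub_eq_zero.mp h4.symm).symm
  rw [← h2]; abel

variable {V : Type} [Fintype V] [DecidableEq V] {M : PlaneGraph V} {L : Type}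

theorem lt_aux {h c μ : ℝ} (h1 : -1 < h) (h2 : h < 1) (hc : 0 < c) (hμ : 0 ≤ μ)
    (hn : c ^ 2 + 2 * c * μ * h + μ ^ 2 = 1) : h < c + μ * h := by
  by_contra hcon
  push Not at hcon
  have hx : 1 - (c + μ * h) ^ 2 = μ ^ 2 * (1 - h ^ 2) := by
    linear_combination -hn
  have hh : 0 < 1 - h ^ 2 := by nlinarith
  rcases lt_trichotomy h 0 with hneg | h0 | hpos
  · have hμ1 : 1 < μ := by
      by_contra h3
      push Not at h3
      nlinarith
    have hm2 : 1 < μ ^ 2 := by nlinarith
    have h4 : (c + μ * h) ^ 2 < h ^ 2 := by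
      have := mul_lt_mul_of_pos_right hm2 hh
      linarith
    have h5 := abs_lt_of_sq_lt_sq' (a := c + μ * h) (b := -h) (by nlinarith) (by linarith)
    linarith [h5.1]
  · rw [h0] at hcon
    linarith
  · have hμ1 : μ < 1 := by
      by_contra h3
      push Not at h3
      nlinarith
    have h6 : 0 ≤ μ * h := mul_nonneg hμ hpos.le
    have hm2 : μ ^ 2 < 1 := by nlinarith
    have h4 : h ^ 2 < (c + μ * h) ^ 2 := by
      have := mul_lt_mul_of_pos_right hm2 hh
      linarith
    have h7 : 0 < c + μ * h := by linarith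
    nlinarith

theorem height_lt {p : V → E3} (hp : M.InC p) {a : E3} (ha : ‖a‖ = 1) {v : V}
    (h1 : p v ≠ a) (h2 : p v ≠ -a) : -1 < ⟪a, p v⟫ ∧ ⟪a, p v⟫ < 1 := by
  constructor
  · have := inner_gt_neg_one ha (hp.unit v) (fun h => h2 (by rw [h, neg_neg]))
    linarith
  · exact inner_lt_one ha (hp.unit v) (fun h => h1 h.symm)

/-- going up along a meridian dart -/
theorem up_lt {p : V → E3} {h : M.Face → E3} (H : M.Std p h) {a : E3} {l : M.Face → L}
    {s t : V} (F : M.Fan p a l s t) {e : M.G.Dart} (h1 : e.fst ≠ s) (h2 : e.fst ≠ t) {c : ℝ}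
    (hc : 0 < c) (hcr : crs (p e.fst) (p e.snd) = c • crs (p e.fst) a) :
    ⟪a, p e.fst⟫ < ⟪a, p e.snd⟫ := by
  have hne1 : p e.fst ≠ a := fun h => h1 (H.inc.inj (h.trans F.ps.symm))
  have hne2 : p e.fst ≠ -a := fun h => h2 (H.inc.inj (h.trans F.pt.symm))
  obtain ⟨b1, b2⟩ := height_lt H.inc F.ua hne1 hne2
  obtain ⟨μ, hμ⟩ := crs_par (H.inc.unit e.fst) hcr
  by_cases hneg : μ < 0
  · have hmem : p s ∈ arc (p e.fst) (p e.snd) := by
      rw [F.ps]
      refine ⟨F.ua, -μ / c, 1 / c, by apply div_nonneg <;> linarith, by positivity, ?_⟩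
      rw [hμ, smul_add, smul_smul, smul_smul]
      have e1 : 1 / c * c = 1 := by field_simp
      have e2 : 1 / c * μ = μ / c := by ring
      rw [e1, e2, one_smul, neg_div, neg_smul]
      abel
    rcases (cx67 H).vert s e hmem with h3 | h3
    · exact absurd h3.symm h1
    · have h4 : p e.snd = a := by
        have : s = e.snd := h3
        rw [← this]; exact F.ps
      rw [h4, inner_self_one F.ua]
      exact b2
  · push Not at hneg
    have hw : ⟪a, p e.snd⟫ = c + μ * ⟪a, p e.fst⟫ := by
      rw [hμ, inner_add_right, real_inner_smul_right, real_inner_smul_right,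
        inner_self_one F.ua]; ring
    rw [hw]
    apply lt_aux b1 b2 hc hneg
    have hnn : ⟪p e.snd, p e.snd⟫ = 1 := inner_self_one (H.inc.unit e.snd)
    rw [hμ, inner_add_left, inner_add_right, inner_add_right, real_inner_smul_left,
      real_inner_smul_left, real_inner_smul_left, real_inner_smul_left, real_inner_smul_right,
      real_inner_smul_right, real_inner_smul_right, real_inner_smul_right,
      inner_self_one F.ua, inner_self_one (H.inc.unit e.fst), real_inner_comm a (p e.fst)] at hnn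
    linarith

theorem E0_symm {l : M.Face → L} {d : M.G.Dart} (hd : M.E0 l d) : M.E0 l d.symm := by
  intro h
  apply hd
  rw [d.symm_symm] at h
  exact h.symm

theorem onE_fst {l : M.Face → L} {d : M.G.Dart} (hd : M.E0 l d) : M.OnE l d.fst :=
  ⟨d, rfl, hd⟩

theorem onE_snd {l : M.Face → L} {d : M.G.Dart} (hd : M.E0 l d) : M.OnE l d.snd :=
  ⟨d.symm, rfl, E0_symm hd⟩

/-- a function constant along the meridian darts is constant on the meridians -/
theorem const_of_E0 {p : V → E3} {h : M.Face → E3} (H : M.Std p h) {a : E3} {l : M.Face → L}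
    {s t : V} (F : M.Fan p a l s t) (u : V → ℝ) (hu : ∀ d, M.E0 l d → u d.fst = u d.snd) :
    ∀ v, M.OnE l v → u v = u s := by
  classical
  have key : ∀ v, M.OnE l v → v ≠ t → u v = u s := by
    by_contra hcon
    push Not at hcon
    obtain ⟨v0, h1, h2, h3⟩ := hcon
    obtain ⟨v, hv, hmax⟩ := Finset.exists_max_image
      (Finset.univ.filter (fun v => M.OnE l v ∧ v ≠ t ∧ u v ≠ u s)) (fun v => ⟪a, p v⟫)
      ⟨v0, by simp [h1, h2, h3]⟩
    simp only [Finset.mem_filter, Finset.mem_univ, true_and] at hv hmax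
    obtain ⟨⟨d, hdv, hd⟩, hvt, hvs⟩ := hv
    have hs : d.fst ≠ s := by
      intro h4
      apply hvs
      rw [← hdv, h4]
    have ht : d.fst ≠ t := by rw [hdv]; exact hvt
    obtain ⟨e, he, hef, c, hc, hcr⟩ := F.up d hd hs ht
    have hlt := up_lt H F (e := e) (by rw [hef]; exact hs) (by rw [hef]; exact ht) hc hcr
    have het : e.snd ≠ t := by
      intro h5
      rw [h5, F.pt, inner_neg_right, inner_self_one F.ua] at hlt
      have hne1 : p e.fst ≠ a := fun h => hs (by rw [← hef]; exact H.inc.inj (h.trans F.ps.symm))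
      have hne2 : p e.fst ≠ -a :=
        fun h => ht (by rw [← hef]; exact H.inc.inj (h.trans F.pt.symm))
      linarith [(height_lt H.inc F.ua hne1 hne2).1]
    have hue : u e.snd ≠ u s := by
      rw [← hu e he, hef, hdv]
      exact hvs
    have := hmax e.snd ⟨onE_snd he, het, hue⟩
    rw [hef, hdv] at hlt
    linarith
  intro v hv
  by_cases hvt : v = t
  · obtain ⟨d, hdv, hd⟩ := hv
    have h1 := key d.snd (onE_snd hd) (by
      rw [← hvt, ← hdv]
      exact d.adj.ne')
    rw [← hdv, hu d hd]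
    exact h1
  · exact key v hv hvt

end D67

theorem st_POTF (hP : ST_POT0) : ST_POTF := by
  intro V _ _ M L p h a l s t H F b hb
  apply hP V M (D67.conn_of_conn3 H.c3) (fun w => l w = b) hb
  intro u hu
  have hE : ∀ d, M.E0 l d → u d.fst = u d.snd := by
    intro d hd
    apply hu
    intro hin
    exact hd (hin.1.trans hin.2.symm)
  have key := D67.const_of_E0 H F u hE
  have hOn : ∀ v, M.OnB (fun w => l w = b) v → u v = u s := by
    rintro v ⟨d, hdv, hd⟩
    apply key
    rcases hd with hd | hd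
    · exact ⟨d, hdv, fun h => hd.2 (h.symm.trans hd.1)⟩
    · refine ⟨d, hdv, fun h => hd.2 ?_⟩
      rw [d.symm_symm]
      exact h.trans hd.1
  intro v w hv hw
  rw [hOn v hv, hOn w hw]

end Pool.Agent.Helper30.N9
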