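import Pool.Agent.Helper67.N9.Potf

/-! MP_9b91d1_co, section 6, row TQ (helper67). -/

open scoped RealInnerProductSpace Topology

namespace Pool.Agent.Helper30.N9

open Cx

namespace D67

section
variable {V : Type} [Fintype V] [DecidableEq V] {M : PlaneGraph V} {L : Type}
  {p : V → E3} {h : M.Face → E3} {a : E3} {l : M.Face → L} {s t : V} {k : ℕ} {th : ℕ → ℝ}
  {r : ℕ → E3} {lam : ℕ → L}

/-! ### The frame -/

theorem det3_frame {a r0 : E3} (ha : ‖a‖ = 1) (hr : ‖r0‖ = 1) (har : ⟪a, r0⟫ = 0) (α β : ℝ) :
    det3 a (Real.cos α • r0 + Real.sin α • crs a r0) (Real.cos β • r0 + Real.sin β • crs a r0)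
      = Real.sin (β - α) := by
  have h1 : ⟪crs a r0, crs a r0⟫ = 1 := by
    rw [crs_inner_self, inner_self_one ha, inner_self_one hr, har]; ring
  have h2 : det3 a r0 (crs a r0) = 1 := by rw [det3_crs, h1]
  have h3 : det3 a (Real.cos α • r0 + Real.sin α • crs a r0)
      (Real.cos β • r0 + Real.sin β • crs a r0)
      = (Real.cos α * Real.sin β - Real.sin α * Real.cos β) * det3 a r0 (crs a r0) := by
    simp only [det3, PiLp.add_apply, PiLp.smul_apply, smul_eq_mul]
    ring
  rw [h3, h2, Real.sin_sub]
  ring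

theorem frame_unit {a r0 : E3} (ha : ‖a‖ = 1) (hr : ‖r0‖ = 1) (har : ⟪a, r0⟫ = 0) (α : ℝ) :
    ‖Real.cos α • r0 + Real.sin α • crs a r0‖ = 1 ∧
      ⟪a, Real.cos α • r0 + Real.sin α • crs a r0⟫ = 0 := by
  have h1 : ⟪crs a r0, crs a r0⟫ = 1 := by
    rw [crs_inner_self, inner_self_one ha, inner_self_one hr, har]; ring
  have h2 : ⟪crs a r0, r0⟫ = 0 := by
    rw [crs_inner]; simp only [det3]; ring
  have h3 : ⟪crs a r0, a⟫ = 0 := by
    rw [crs_inner]; simp only [det3]; ring
  constructor
  · have h4 : ⟪Real.cos α • r0 + Real.sin α • crs a r0,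
        Real.cos α • r0 + Real.sin α • crs a r0⟫ = 1 := by
      rw [inner_add_left, inner_add_right, inner_add_right, real_inner_smul_left,
        real_inner_smul_left, real_inner_smul_left, real_inner_smul_left,
        real_inner_smul_right, real_inner_smul_right, real_inner_smul_right,
        real_inner_smul_right, inner_self_one hr, h1, h2, real_inner_comm (crs a r0) r0, h2]
      have := Real.sin_sq_add_cos_sq α
      nlinarith
    rw [real_inner_self_eq_norm_sq] at h4
    have h5 : 0 ≤ ‖Real.cos α • r0 + Real.sin α • crs a r0‖ := norm_nonneg _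
    nlinarith
  · rw [inner_add_right, real_inner_smul_right, real_inner_smul_right, har,
      real_inner_comm (crs a r0) a, h3]
    ring

theorem r_unit (ha : ‖a‖ = 1) (G : M.FanL p a l s t k th r lam) {i : ℕ} (hi : i ≤ k) :
    ‖r i‖ = 1 ∧ ⟪a, r i⟫ = 0 := by
  rw [G.rr i hi]
  exact frame_unit ha G.r0 G.ar0 _

theorem det3_rr (ha : ‖a‖ = 1) (G : M.FanL p a l s t k th r lam) {i j : ℕ} (hi : i ≤ k)
    (hj : j ≤ k) : det3 a (r i) (r j) = Real.sin (th j - th i) := by
  rw [G.rr i hi, G.rr j hj]
  exact det3_frame ha G.r0 G.ar0 _ _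

theorem th_mono (G : M.FanL p a l s t k th r lam) {i j : ℕ} (hij : i < j) (hj : j ≤ k) :
    th i < th j := by
  induction j with
  | zero => omega
  | succ n ih =>
    rcases Nat.lt_or_ge i n with h1 | h1
    · exact (ih h1 (by omega)).trans (G.thl n (by omega))
    · have : i = n := by omega
      rw [this]
      exact G.thl n (by omega)

theorem th_range (G : M.FanL p a l s t k th r lam) {i : ℕ} (hi : i ≤ k) :
    0 ≤ th i ∧ th i ≤ 2 * Real.pi := by
  constructor
  · rcases Nat.eq_zero_or_pos i with h1 | h1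
    · rw [h1, G.th0]
    · rw [← G.th0]; exact (th_mono G h1 hi).le
  · rcases hi.lt_or_eq with h1 | h1
    · rw [← G.thk]; exact (th_mono G h1 le_rfl).le
    · rw [h1, G.thk]

theorem rk (G : M.FanL p a l s t k th r lam) : r k = r 0 := by
  have h1 := G.rr k le_rfl
  rw [G.thk, Real.cos_two_pi, Real.sin_two_pi, one_smul, zero_smul, add_zero] at h1
  exact h1

/-- a meridian inside a closed lune is one of its sides -/
theorem ray_lune (ha : ‖a‖ = 1) (G : M.FanL p a l s t k th r lam) {i j : ℕ} (hi : i < k)
    (hj : j ≤ k) (h1 : 0 ≤ det3 a (r i) (r j)) (h2 : 0 ≤ det3 a (r j) (r (i + 1))) :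
    r j = r i ∨ r j = r (i + 1) := by
  have hpi := Real.pi_pos
  rw [det3_rr ha G hi.le hj] at h1
  rw [det3_rr ha G hj (by omega)] at h2
  obtain ⟨a1, a2⟩ := th_range G hi.le
  obtain ⟨b1, b2⟩ := th_range G hj
  obtain ⟨c1, c2⟩ := th_range G (i := i + 1) (by omega)
  have hl := G.thl i hi
  have hp := G.thp i hi
  rcases lt_trichotomy j i with hlt | heq | hgt
  · -- j < i
    have hm := th_mono G hlt hi.le
    have hx : Real.pi ≤ th i - th j := by
      by_contra hc
      push Not at hc
      have := Real.sin_pos_of_pos_of_lt_pi (x := th i - th j) (by linarith) hc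
      have e : Real.sin (th j - th i) = - Real.sin (th i - th j) := by
        rw [← Real.sin_neg]; congr 1; ring
      rw [e] at h1
      linarith
    have hy : th (i + 1) - th j = 2 * Real.pi := by
      by_contra hc
      have hlt2 : th (i + 1) - th j < 2 * Real.pi :=
        lt_of_le_of_ne (by linarith) hc
      have := Real.sin_neg_of_neg_of_neg_pi_lt (x := th (i + 1) - th j - 2 * Real.pi)
        (by linarith) (by linarith)
      rw [Real.sin_sub_two_pi] at this
      linarith
    have hj0 : j = 0 := by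
      by_contra hc
      have := th_mono G (Nat.pos_of_ne_zero hc) hj
      rw [G.th0] at this
      linarith
    have hik : i + 1 = k := by
      by_contra hc
      have := th_mono G (i := i + 1) (j := k) (by omega) le_rfl
      rw [G.thk] at this
      linarith
    right
    rw [hj0, hik, rk G]
  · left; rw [heq]
  · rcases Nat.lt_or_ge (i + 1) j with hgt2 | hle
    · have hm := th_mono G hgt2 hj
      by_cases hx : th j - th i = 2 * Real.pi
      · have hi0 : i = 0 := by
          by_contra hc
          have := th_mono G (Nat.pos_of_ne_zero hc) hi.le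
          rw [G.th0] at this
          linarith
        have hjk : j = k := by
          by_contra hc
          have := th_mono G (i := j) (j := k) (by omega) le_rfl
          rw [G.thk] at this
          linarith
        left
        rw [hi0, hjk, rk G]
      · exfalso
        have hx2 : th j - th i < 2 * Real.pi := lt_of_le_of_ne (by linarith) hx
        have hx3 : th j - th i ≤ Real.pi := by
          by_contra hc
          push Not at hc
          have := Real.sin_neg_of_neg_of_neg_pi_lt (x := th j - th i - 2 * Real.pi)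
            (by linarith) (by linarith)
          rw [Real.sin_sub_two_pi] at this
          linarith
        have := Real.sin_pos_of_pos_of_lt_pi (x := th j - th (i + 1)) (by linarith)
          (by linarith)
        have e : Real.sin (th (i + 1) - th j) = - Real.sin (th j - th (i + 1)) := by
          rw [← Real.sin_neg]; congr 1; ring
        rw [e] at h2
        linarith
    · have : j = i + 1 := by omega
      right; rw [this]

/-- different meridians have different directions -/
theorem r_inj (ha : ‖a‖ = 1) (G : M.FanL p a l s t k th r lam) {i j : ℕ} (hij : i < j)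
    (hj : j ≤ k) (hne : i ≠ 0 ∨ j ≠ k) : r i ≠ r j := by
  intro he
  have hpi := Real.pi_pos
  obtain ⟨a1, a2⟩ := th_range G (i := i) (by omega)
  obtain ⟨b1, b2⟩ := th_range G hj
  have hm := th_mono G hij hj
  have hlt : th j - th i < 2 * Real.pi := by
    rcases hne with h1 | h1
    · have := th_mono G (Nat.pos_of_ne_zero h1) (by omega : i ≤ k)
      rw [G.th0] at this
      linarith
    · have := th_mono G (i := j) (j := k) (by omega) le_rfl
      rw [G.thk] at this
      linarith
  have h0 : det3 a (r i) (r j) = 0 := by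
    rw [← he]; simp only [det3]; ring
  rw [det3_rr ha G (by omega) hj] at h0
  have h1 : ⟪r i, r j⟫ = Real.cos (th j - th i) := by
    rw [G.rr i (by omega), G.rr j hj]
    have g1 : ⟪crs a (r 0), crs a (r 0)⟫ = 1 := by
      rw [crs_inner_self, inner_self_one ha, inner_self_one G.r0, G.ar0]; ring
    have g2 : ⟪crs a (r 0), r 0⟫ = 0 := by
      rw [crs_inner]; simp only [det3]; ring
    rw [inner_add_left, inner_add_right, inner_add_right, real_inner_smul_left,
      real_inner_smul_left, real_inner_smul_left, real_inner_smul_left,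
      real_inner_smul_right, real_inner_smul_right, real_inner_smul_right,
      real_inner_smul_right, inner_self_one G.r0, g1, g2,
      real_inner_comm (crs a (r 0)) (r 0), g2, Real.cos_sub]
    ring
  rw [← he, inner_self_one (r_unit ha G (i := i) (by omega)).1] at h1
  -- cos x = 1, 0 < x < 2 pi
  have h2 := (Real.cos_eq_one_iff_of_lt_of_lt (x := th j - th i) (by linarith) hlt).mp h1.symm
  linarith

/-- a vertex other than the poles lies on at most one meridian direction -/
theorem onR_unique {a r r' x : E3} (ha : ‖a‖ = 1) (hx : ‖x‖ = 1) (hr : ‖r‖ = 1)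
    (har : ⟪a, r⟫ = 0) (hr' : ‖r'‖ = 1) (h1 : OnR a r x) (h2 : OnR a r' x)
    (n1 : x ≠ a) (n2 : x ≠ -a) : r = r' := by
  obtain ⟨c, hc, hcx⟩ := h1
  obtain ⟨c', hc', hcx'⟩ := h2
  have hcc : c • r = c' • r' := by
    have := hcx.symm.trans hcx'
    exact add_right_cancel this
  have hn : c = c' := by
    have := congrArg norm hcc
    rwa [norm_smul, norm_smul, hr, hr', mul_one, mul_one, Real.norm_of_nonneg hc,
      Real.norm_of_nonneg hc'] at this
  have hc0 : c ≠ 0 := by
    intro h0
    rw [h0, zero_smul, zero_add] at hcx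
    have h3 : |⟪a, x⟫| = 1 := by
      have := congrArg norm hcx
      rw [norm_smul, ha, mul_one, hx, Real.norm_eq_abs] at this
      exact this.symm
    rcases abs_eq (by norm_num : (0 : ℝ) ≤ 1) |>.mp h3 with h4 | h4
    · rw [h4, one_smul] at hcx; exact n1 hcx
    · rw [h4, neg_one_smul] at hcx; exact n2 hcx
  rw [← hn] at hcc
  exact smul_right_injective E3 hc0 hcc

theorem onR_pos {a r x : E3} (ha : ‖a‖ = 1) (hx : ‖x‖ = 1) (h1 : OnR a r x)
    (n1 : x ≠ a) (n2 : x ≠ -a) : ∃ c : ℝ, 0 < c ∧ x = c • r + ⟪a, x⟫ • a := by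
  obtain ⟨c, hc, hcx⟩ := h1
  refine ⟨c, lt_of_le_of_ne hc ?_, hcx⟩
  intro h0
  rw [← h0, zero_smul, zero_add] at hcx
  have h3 : |⟪a, x⟫| = 1 := by
    have := congrArg norm hcx
    rw [norm_smul, ha, mul_one, hx, Real.norm_eq_abs] at this
    exact this.symm
  rcases abs_eq (by norm_num : (0 : ℝ) ≤ 1) |>.mp h3 with h4 | h4
  · rw [h4, one_smul] at hcx; exact n1 hcx
  · rw [h4, neg_one_smul] at hcx; exact n2 hcx

theorem det3_of_ray {a r x : E3} {c : ℝ} (hx : x = c • r + ⟪a, x⟫ • a) (y : E3) :
    det3 a y x = c * det3 a y r ∧ det3 a x y = c * det3 a r y := by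
  have e1 : ∀ z : ℝ, det3 a y (c • r + z • a) = c * det3 a y r := by
    intro z
    simp only [det3, PiLp.add_apply, PiLp.smul_apply, smul_eq_mul]; ring
  have e2 : ∀ z : ℝ, det3 a (c • r + z • a) y = c * det3 a r y := by
    intro z
    simp only [det3, PiLp.add_apply, PiLp.smul_apply, smul_eq_mul]; ring
  constructor
  · rw [hx]; exact e1 _
  · rw [hx]; exact e2 _

/-- on the meridian `r`, not a pole -/
def On' (p : V → E3) (a : E3) (s t : V) (r : E3) (v : V) : Prop :=
  OnR a r (p v) ∧ v ≠ s ∧ v ≠ t

theorem ne_pole (H : M.Std p h) (F : M.Fan p a l s t) {v : V} (h1 : v ≠ s) (h2 : v ≠ t) :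
    p v ≠ a ∧ p v ≠ -a :=
  ⟨fun h => h1 (H.inc.inj (h.trans F.ps.symm)), fun h => h2 (H.inc.inj (h.trans F.pt.symm))⟩

/-- the meridians met by the faces of lune i -/
theorem on_lune (H : M.Std p h) (F : M.Fan p a l s t) (G : M.FanL p a l s t k th r lam)
    {i j : ℕ} (hi : i < k) (hj : j ≤ k) {e : M.G.Dart} (he : l (M.fc e) = lam i)
    (hon : On' p a s t (r j) e.fst) : r j = r i ∨ r j = r (i + 1) := by
  obtain ⟨n1, n2⟩ := ne_pole H F hon.2.1 hon.2.2
  obtain ⟨c, hc, hcx⟩ := onR_pos F.ua (H.inc.unit _) hon.1 n1 n2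
  obtain ⟨b1, b2⟩ := G.lune i hi e he
  rw [(det3_of_ray hcx _).1] at b1
  rw [(det3_of_ray hcx _).2] at b2
  apply ray_lune F.ua G hi hj
  · by_contra hcon
    push Not at hcon
    nlinarith
  · by_contra hcon
    push Not at hcon
    nlinarith

/-! ### Rotation around a vertex -/

theorem rot_fst (d : M.G.Dart) : (M.rot d).fst = d.fst := by
  rw [M.rot_eq, M.nxt_fst]; rfl

theorem fc_rot (d : M.G.Dart) : M.fc (M.rot d) = M.fc d.symm := by
  rw [M.rot_eq, M.fc_nxt]

theorem label_const {v : V} (hv : ¬ M.OnE l v) : ∀ d e : M.G.Dart, d.fst = v → e.fst = v →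
    l (M.fc d) = l (M.fc e) := by
  intro d e hd he
  have hstep : ∀ d : M.G.Dart, d.fst = v → l (M.fc (M.rot d)) = l (M.fc d) := by
    intro d hd
    rw [fc_rot]
    by_contra hne
    exact hv ⟨d, hd, fun h => hne h.symm⟩
  obtain ⟨n, -, hn⟩ := (M.trans d e (hd.trans he.symm)).exists_pow_eq'
  have key : ∀ n : ℕ, ((M.rot ^ n) d).fst = v ∧ l (M.fc ((M.rot ^ n) d)) = l (M.fc d) := by
    intro n
    induction n with
    | zero => exact ⟨hd, rfl⟩
    | succ n ih =>
      rw [pow_succ', Equiv.Perm.mul_apply]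
      exact ⟨(rot_fst _).trans ih.1, (hstep _ ih.1).trans ih.2⟩
  rw [← hn]
  exact (key n).2.symm

end

end D67

end Pool.Agent.Helper30.N9
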